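import Mathlib

set_option autoImplicit false
set_option linter.unusedSectionVars false
open Polynomial

namespace Pool.Agent.H18R2.BZD.Q2

/-- the defining relations of the algebra -/
structure Rel {k : Type} [Field k] {R : Type} [Ring R] [Algebra k R] (ω : k) (x y z v : R) :
    Prop where
  hω : ω ^ 2 + ω + 1 = 0
  h1 : y * x = x * y + 1
  h2 : v * y = ω • (y * v)
  h3 : ω • ((y - 1) * v * x) = x * ((y - 1) * v)
  h4 : z * (y - algebraMap k R (ω ^ 2)) = 1
  h5 : (y - algebraMap k R (ω ^ 2)) * z = 1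

variable {k : Type} [Field k] {R : Type} [Ring R] [Algebra k R] {ω : k} {x y z v : R}

theorem omega3 (hω : ω ^ 2 + ω + 1 = 0) : ω ^ 3 = 1 := by
  have : ω ^ 3 - 1 = (ω - 1) * (ω ^ 2 + ω + 1) := by ring
  rw [hω, mul_zero] at this
  exact sub_eq_zero.mp this

theorem omega_ne (hω : ω ^ 2 + ω + 1 = 0) : ω ≠ 0 := by
  rintro rfl; simp at hω

/-- `u = (y - 1) v` -/
def uu (y v : R) : R := (y - 1) * v

section
variable (h : Rel ω x y z v)
include h

theorem zy : z * y = y * z := by
  have e1 : z * y = 1 + z * algebraMap k R (ω ^ 2) := by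
    rw [← h.h4]; noncomm_ring
  have e2 : y * z = 1 + algebraMap k R (ω ^ 2) * z := by
    rw [← h.h5]; noncomm_ring
  rw [e1, e2, Algebra.commutes]

theorem zx : z * x = x * z - z * z := by
  have e1 : x * (y - algebraMap k R (ω ^ 2)) = (y - algebraMap k R (ω ^ 2)) * x - 1 := by
    rw [mul_sub, sub_mul, h.h1, Algebra.commutes]; abel
  calc z * x = z * x * ((y - algebraMap k R (ω ^ 2)) * z) := by rw [h.h5, mul_one]
    _ = z * (x * (y - algebraMap k R (ω ^ 2))) * z := by noncomm_ring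
    _ = (z * (y - algebraMap k R (ω ^ 2))) * x * z - z * z := by rw [e1]; noncomm_ring
    _ = x * z - z * z := by rw [h.h4, one_mul]

theorem zpow_x (n : ℕ) : z ^ n * x = x * z ^ n - (n : k) • z ^ (n + 1) := by
  induction n with
  | zero => simp
  | succ n ih =>
    rw [pow_succ' z n, mul_assoc, ih, mul_sub, ← mul_assoc, zx h, mul_smul_comm, ← pow_succ',
      sub_mul, mul_assoc, mul_assoc, ← pow_succ', ← pow_succ']
    push_cast
    rw [add_smul, one_smul]
    abel

theorem ypow_x (n : ℕ) : y ^ (n + 1) * x = x * y ^ (n + 1) + ((n + 1 : ℕ) : k) • y ^ n := by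
  induction n with
  | zero => simp [h.h1]
  | succ n ih =>
    rw [pow_succ' y (n + 1), mul_assoc, ih, mul_add, ← mul_assoc, h.h1, mul_smul_comm, ← pow_succ',
      add_mul, one_mul, mul_assoc, ← pow_succ', add_assoc]
    congr 1
    rw [show (((n + 1 + 1 : ℕ)) : k) = 1 + ((n + 1 : ℕ) : k) by push_cast; ring, add_smul, one_smul]

theorem y_xpow (n : ℕ) : y * x ^ (n + 1) = x ^ (n + 1) * y + ((n + 1 : ℕ) : k) • x ^ n := by
  induction n with
  | zero => simp [h.h1]
  | succ a ih =>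
    rw [pow_succ x (a + 1), ← mul_assoc, ih, add_mul, mul_assoc, h.h1, mul_add, ← mul_assoc, mul_one,
      smul_mul_assoc, ← pow_succ, ← pow_succ, add_assoc]
    congr 1
    rw [show (((a + 1 + 1 : ℕ)) : k) = 1 + ((a + 1 : ℕ) : k) by push_cast; ring, add_smul, one_smul]

theorem uy : uu y v * y = ω • (y * uu y v) := by
  rw [uu, mul_assoc, h.h2, mul_smul_comm]
  congr 1
  noncomm_ring

theorem ux : uu y v * x = ω ^ 2 • (x * uu y v) := by
  have h3 := h.h3
  have := congrArg (fun r => ω ^ 2 • r) h3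
  simp only [smul_smul] at this
  rw [show ω ^ 2 * ω = ω ^ 3 by ring, omega3 h.hω, one_smul] at this
  exact this

theorem vyw : v * (y - algebraMap k R ω) = ω • uu y v := by
  rw [uu, mul_sub, h.h2, ← Algebra.commutes, Algebra.algebraMap_eq_smul_one, sub_mul, one_mul,
    smul_sub, smul_mul_assoc, one_mul]

theorem F4 : v = ω • ((y - algebraMap k R ω) * (v * z)) := by
  have e1 : v * (y - algebraMap k R (ω ^ 2)) = ω • ((y - algebraMap k R ω) * v) := by
    rw [mul_sub, h.h2, ← Algebra.commutes, sub_mul, smul_sub, Algebra.algebraMap_eq_smul_one,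
      Algebra.algebraMap_eq_smul_one, smul_mul_assoc, smul_mul_assoc, smul_smul, one_mul, pow_two]
  calc v = v * ((y - algebraMap k R (ω ^ 2)) * z) := by rw [h.h5, mul_one]
    _ = _ := by rw [← mul_assoc, e1, smul_mul_assoc, mul_assoc]

omit h in
theorem yw_comm_y (c : k) : (y - 1) * (y - algebraMap k R c) = (y - algebraMap k R c) * (y - 1) := by
  have e : algebraMap k R c * y = y * algebraMap k R c := Algebra.commutes c y
  simp only [sub_mul, mul_sub, e, one_mul, mul_one]; abel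

theorem F4u : uu y v = ω • ((y - algebraMap k R ω) * (uu y v * z)) := by
  have e := F4 h
  rw [uu]
  nth_rewrite 1 [e]
  rw [mul_smul_comm, ← mul_assoc, yw_comm_y]
  congr 1
  noncomm_ring

theorem F5 : v = ω ^ 2 • (z * (v * (y - 1))) := by
  have e1 : v * (y - 1) = ω • ((y - algebraMap k R (ω ^ 2)) * v) := by
    rw [mul_sub, h.h2, sub_mul, smul_sub, mul_one, Algebra.algebraMap_eq_smul_one,
      smul_mul_assoc, smul_smul, one_mul, show ω * ω ^ 2 = ω ^ 3 by ring, omega3 h.hω, one_smul]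
  rw [e1, mul_smul_comm, ← mul_assoc, h.h4, one_mul, smul_smul, show ω ^ 2 * ω = ω ^ 3 by ring,
    omega3 h.hω, one_smul]

end


/-! ### normal form spaces -/

/-- typical elements with at least two factors `u` -/
def EE (x y z v : R) (i b n0 n1 n2 c : ℕ) : R :=
  x ^ i * (y ^ b * (z ^ n0 * (uu y v * (z ^ n1 * (uu y v * (z ^ n2 * uu y v ^ c))))))

/-- the space `N` -/
def NS (k : Type) [Field k] {R : Type} [Ring R] [Algebra k R] (x y z v : R) : Submodule k R :=
  Submodule.span k {w | ∃ i b n0 n1 n2 c, w = EE x y z v i b n0 n1 n2 c}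

/-- the space `N₂` -/
def N2 (k : Type) [Field k] {R : Type} [Ring R] [Algebra k R] (x y z v : R) : Submodule k R :=
  Submodule.span k {w | ∃ i b n0 n1 n2, w = EE x y z v i b n0 n1 n2 0}

/-- the space `N₂` without `z` in the first slot -/
def N20 (k : Type) [Field k] {R : Type} [Ring R] [Algebra k R] (x y z v : R) : Submodule k R :=
  Submodule.span k {w | ∃ i b n1 n2, w = EE x y z v i b 0 n1 n2 0}

/-- the span of the `x^i y^b z^n G` -/
def LS (k : Type) [Field k] {R : Type} [Ring R] [Algebra k R] (x y z G : R) : Submodule k R :=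
  Submodule.span k {w | ∃ i b n, w = x ^ i * (y ^ b * (z ^ n * G))}

theorem EE_mem (i b n0 n1 n2 c : ℕ) : EE x y z v i b n0 n1 n2 c ∈ NS k x y z v :=
  Submodule.subset_span ⟨i, b, n0, n1, n2, c, rfl⟩

theorem EE_mem2 (i b n0 n1 n2 : ℕ) : EE x y z v i b n0 n1 n2 0 ∈ N2 k x y z v :=
  Submodule.subset_span ⟨i, b, n0, n1, n2, rfl⟩

theorem EE_mem20 (i b n1 n2 : ℕ) : EE x y z v i b 0 n1 n2 0 ∈ N20 k x y z v :=
  Submodule.subset_span ⟨i, b, n1, n2, rfl⟩

theorem LS_mem (G : R) (i b n : ℕ) : x ^ i * (y ^ b * (z ^ n * G)) ∈ LS k x y z G :=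
  Submodule.subset_span ⟨i, b, n, rfl⟩

theorem N2_le : N2 k x y z v ≤ NS k x y z v := by
  apply Submodule.span_mono
  rintro w ⟨i, b, n0, n1, n2, rfl⟩
  exact ⟨i, b, n0, n1, n2, 0, rfl⟩

theorem N20_le : N20 k x y z v ≤ N2 k x y z v := by
  apply Submodule.span_mono
  rintro w ⟨i, b, n1, n2, rfl⟩
  exact ⟨i, b, 0, n1, n2, rfl⟩

/-- left multiplication maps a span into a submodule as soon as it does so for generators -/
theorem left_span {s : Set R} {S : Submodule k R} {a : R} (ha : ∀ w ∈ s, a * w ∈ S) {r : R}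
    (hr : r ∈ Submodule.span k s) : a * r ∈ S := by
  induction hr using Submodule.span_induction with
  | mem w hw => exact ha w hw
  | zero => simp
  | add a b _ _ ha hb => rw [mul_add]; exact add_mem ha hb
  | smul c a _ ha => rw [mul_smul_comm]; exact Submodule.smul_mem _ _ ha

theorem right_span {s : Set R} {S : Submodule k R} {a : R} (ha : ∀ w ∈ s, w * a ∈ S) {r : R}
    (hr : r ∈ Submodule.span k s) : r * a ∈ S := by
  induction hr using Submodule.span_induction with
  | mem w hw => exact ha w hw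
  | zero => simp
  | add a b _ _ ha hb => rw [add_mul]; exact add_mem ha hb
  | smul c a _ ha => rw [smul_mul_assoc]; exact Submodule.smul_mem _ _ ha

theorem pow_left {S : Submodule k R} {a : R} (ha : ∀ r ∈ S, a * r ∈ S) (n : ℕ) :
    ∀ r ∈ S, a ^ n * r ∈ S := by
  induction n with
  | zero => intro r hr; simpa using hr
  | succ n ih => intro r hr; rw [pow_succ', mul_assoc]; exact ha _ (ih r hr)

theorem pow_right' {S : Submodule k R} {a : R} (ha : ∀ r ∈ S, r * a ∈ S) (n : ℕ) :
    ∀ r ∈ S, r * a ^ n ∈ S := by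
  induction n with
  | zero => intro r hr; simpa using hr
  | succ n ih => intro r hr; rw [pow_succ, ← mul_assoc]; exact ha _ (ih r hr)

section
variable (h : Rel ω x y z v)

theorem LS_x (G : R) : ∀ r ∈ LS k x y z G, x * r ∈ LS k x y z G := by
  intro r hr
  refine left_span ?_ hr
  rintro w ⟨i, b, n, rfl⟩
  rw [← mul_assoc, ← pow_succ']
  exact LS_mem _ _ _ _

include h

theorem LS_y (G : R) : ∀ r ∈ LS k x y z G, y * r ∈ LS k x y z G := by
  intro r hr
  refine left_span ?_ hr
  rintro w ⟨i, b, n, rfl⟩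
  rcases i with _ | i
  · rw [pow_zero, one_mul, ← mul_assoc, ← pow_succ']
    simpa using LS_mem (k := k) (x := x) (y := y) (z := z) G 0 (b + 1) n
  · rw [← mul_assoc, y_xpow h, add_mul, smul_mul_assoc, mul_assoc, ← mul_assoc y, ← pow_succ']
    exact add_mem (LS_mem _ _ _ _) (Submodule.smul_mem _ _ (LS_mem _ _ _ _))

theorem zpow_ypow (m b : ℕ) : z ^ m * y ^ b = y ^ b * z ^ m :=
  (Commute.pow_pow (zy h : Commute z y) m b)

theorem LS_zpow (G : R) (i : ℕ) : ∀ m b n, z ^ m * (x ^ i * (y ^ b * (z ^ n * G))) ∈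
    LS k x y z G := by
  induction i with
  | zero =>
    intro m b n
    rw [pow_zero, one_mul, ← mul_assoc, zpow_ypow h, mul_assoc, ← mul_assoc (z ^ m), ← pow_add]
    simpa using LS_mem (k := k) (x := x) (y := y) (z := z) G 0 b (m + n)
  | succ i ih =>
    intro m b n
    rw [pow_succ', mul_assoc, ← mul_assoc (z ^ m), zpow_x h, sub_mul, mul_assoc, smul_mul_assoc]
    exact sub_mem (LS_x _ _ (ih m b n)) (Submodule.smul_mem _ _ (ih (m + 1) b n))

theorem LS_z (G : R) : ∀ r ∈ LS k x y z G, z * r ∈ LS k x y z G := by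
  intro r hr
  refine left_span ?_ hr
  rintro w ⟨i, b, n, rfl⟩
  have := LS_zpow h G i 1 b n
  rwa [pow_one] at this

/-- left closure of a span of elements `x^i y^b z^n G`, `G ∈ 𝒢` -/
theorem gen_left {s : Set R} {S : Submodule k R} (hS : S = Submodule.span k s)
    (hs : ∀ w ∈ s, ∃ G, w ∈ LS k x y z G ∧ LS k x y z G ≤ S) :
    (∀ r ∈ S, x * r ∈ S) ∧ (∀ r ∈ S, y * r ∈ S) ∧ (∀ r ∈ S, z * r ∈ S) := by
  refine ⟨?_, ?_, ?_⟩ <;>
  · intro r hr
    rw [hS] at hr
    refine left_span (S := S) ?_ hr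
    intro w hw
    obtain ⟨G, hG, hle⟩ := hs w hw
    first
      | exact hle (LS_x G w hG)
      | exact hle (LS_y h G w hG)
      | exact hle (LS_z h G w hG)

theorem NS_left : (∀ r ∈ NS k x y z v, x * r ∈ NS k x y z v) ∧
    (∀ r ∈ NS k x y z v, y * r ∈ NS k x y z v) ∧
    (∀ r ∈ NS k x y z v, z * r ∈ NS k x y z v) := by
  apply gen_left h rfl
  rintro w ⟨i, b, n0, n1, n2, c, rfl⟩
  refine ⟨uu y v * (z ^ n1 * (uu y v * (z ^ n2 * uu y v ^ c))), LS_mem _ _ _ _, ?_⟩
  apply Submodule.span_mono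
  rintro w ⟨i, b, n0, rfl⟩
  exact ⟨i, b, n0, n1, n2, c, rfl⟩

theorem N2_left : (∀ r ∈ N2 k x y z v, x * r ∈ N2 k x y z v) ∧
    (∀ r ∈ N2 k x y z v, y * r ∈ N2 k x y z v) ∧
    (∀ r ∈ N2 k x y z v, z * r ∈ N2 k x y z v) := by
  apply gen_left h rfl
  rintro w ⟨i, b, n0, n1, n2, rfl⟩
  refine ⟨uu y v * (z ^ n1 * (uu y v * (z ^ n2 * uu y v ^ 0))), LS_mem _ _ _ _, ?_⟩
  apply Submodule.span_mono
  rintro w ⟨i, b, n0, rfl⟩
  exact ⟨i, b, n0, n1, n2, rfl⟩

theorem N2_left_mon {r : R} (hr : r ∈ N2 k x y z v) (i b n : ℕ) :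
    x ^ i * (y ^ b * (z ^ n * r)) ∈ N2 k x y z v :=
  pow_left (N2_left h).1 i _ (pow_left (N2_left h).2.1 b _ (pow_left (N2_left h).2.2 n _ hr))

theorem u_xpow (i : ℕ) : uu y v * x ^ i = (ω ^ 2) ^ i • (x ^ i * uu y v) := by
  induction i with
  | zero => simp
  | succ i ih =>
    rw [pow_succ, ← mul_assoc, ih, smul_mul_assoc, mul_assoc, ux h, mul_smul_comm, smul_smul,
      ← pow_succ, ← mul_assoc]

theorem u_ypow (i : ℕ) : uu y v * y ^ i = ω ^ i • (y ^ i * uu y v) := by
  induction i with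
  | zero => simp
  | succ i ih =>
    rw [pow_succ, ← mul_assoc, ih, smul_mul_assoc, mul_assoc, uy h, mul_smul_comm, smul_smul,
      ← pow_succ, ← mul_assoc]

theorem N20_right_z : ∀ r ∈ N20 k x y z v, r * z ∈ N20 k x y z v := by
  intro r hr
  refine right_span ?_ hr
  rintro w ⟨i, b, n1, n2, rfl⟩
  have : EE x y z v i b 0 n1 n2 0 * z = EE x y z v i b 0 n1 (n2 + 1) 0 := by
    simp only [EE, pow_zero, mul_one, one_mul, mul_assoc, pow_succ]
  rw [this]
  exact EE_mem20 _ _ _ _

theorem xpow_yw (i : ℕ) (c : k) : x ^ (i + 1) * (y - algebraMap k R c)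
    = (y - algebraMap k R c) * x ^ (i + 1) - ((i + 1 : ℕ) : k) • x ^ i := by
  rw [mul_sub, sub_mul, y_xpow h, Algebra.commutes]
  abel

theorem yw_comm (c : k) (b n : ℕ) (r : R) : y ^ b * (z ^ n * ((y - algebraMap k R c) * r))
    = (y - algebraMap k R c) * (y ^ b * (z ^ n * r)) := by
  have e1 : Commute (y - algebraMap k R c) (y ^ b * z ^ n) := by
    apply Commute.sub_left
    · apply Commute.mul_right
      · exact (Commute.refl y).pow_right b
      · exact (show Commute y z from (zy h).symm).pow_right n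
    · exact Algebra.commutes c _
  rw [← mul_assoc, ← mul_assoc, ← e1.eq]
  simp only [mul_assoc]

theorem K1i (i : ℕ) : ∀ b n, v * (x ^ i * (y ^ b * (z ^ n * uu y v))) ∈ N20 k x y z v := by
  have key : ∀ i b n, uu y v * (x ^ i * (y ^ b * (z ^ n * (uu y v * z)))) ∈ N20 k x y z v := by
    intro i b n
    have : uu y v * (x ^ i * (y ^ b * (z ^ n * (uu y v * z))))
        = ((ω ^ 2) ^ i * ω ^ b) • EE x y z v i b 0 n 1 0 := by
      rw [← mul_assoc, u_xpow h, smul_mul_assoc, mul_assoc, ← mul_assoc (uu y v) (y ^ b), u_ypow h,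
        smul_mul_assoc, mul_smul_comm, smul_smul]
      simp only [EE, pow_zero, one_mul, mul_one, pow_one, mul_assoc]
    rw [this]
    exact Submodule.smul_mem _ _ (EE_mem20 _ _ _ _)
  have e0 : ∀ i b n, x ^ i * (y ^ b * (z ^ n * uu y v))
      = ω • (x ^ i * ((y - algebraMap k R ω) * (y ^ b * (z ^ n * (uu y v * z))))) := by
    intro i b n
    nth_rewrite 1 [F4u h]
    rw [mul_smul_comm, mul_smul_comm, mul_smul_comm, yw_comm h]
  induction i with
  | zero =>
    intro b n
    rw [e0, pow_zero, one_mul, mul_smul_comm, ← mul_assoc, vyw h, smul_mul_assoc]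
    have := key 0 b n
    rw [pow_zero, one_mul] at this
    exact Submodule.smul_mem _ _ (Submodule.smul_mem _ _ this)
  | succ i ih =>
    intro b n
    rw [e0, ← mul_assoc (x ^ (i + 1)), xpow_yw h, sub_mul, smul_sub, mul_sub, mul_smul_comm,
      mul_assoc, ← mul_assoc v, vyw h, smul_mul_assoc, smul_mul_assoc]
    apply sub_mem
    · exact Submodule.smul_mem _ _ (Submodule.smul_mem _ _ (key (i + 1) b n))
    · rw [mul_smul_comm, mul_smul_comm]
      apply Submodule.smul_mem
      apply Submodule.smul_mem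
      have := N20_right_z h _ (ih b n)
      simpa only [mul_assoc] using this

theorem K1ii (i : ℕ) : ∀ b n, v * (x ^ i * (y ^ b * (z ^ n * v))) ∈ N2 k x y z v := by
  have e1 : ∀ i b n, x ^ i * ((y - 1) * (y ^ b * (z ^ n * v)))
      = x ^ i * (y ^ b * (z ^ n * uu y v)) := by
    intro i b n
    have := yw_comm h 1 b n v
    rw [map_one] at this
    rw [← this, uu]
  have e0 : ∀ r : R, v * r = ω ^ 2 • (z * (v * ((y - 1) * r))) := by
    intro r
    nth_rewrite 1 [F5 h]
    rw [smul_mul_assoc]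
    simp only [mul_assoc]
  induction i with
  | zero =>
    intro b n
    rw [e0, pow_zero, one_mul]
    have := e1 0 b n
    rw [pow_zero, one_mul, one_mul] at this
    rw [this]
    apply Submodule.smul_mem
    apply (N2_left h).2.2
    have := K1i h 0 b n
    rw [pow_zero, one_mul] at this
    exact N20_le this
  | succ i ih =>
    intro b n
    have e2 : (y - 1) * x ^ (i + 1) = x ^ (i + 1) * (y - 1) + ((i + 1 : ℕ) : k) • x ^ i := by
      rw [sub_mul, y_xpow h, one_mul, mul_sub, mul_one]; abel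
    rw [e0, ← mul_assoc (y - 1), e2, add_mul, mul_assoc, e1, mul_add, mul_add, smul_add]
    apply add_mem
    · apply Submodule.smul_mem
      apply (N2_left h).2.2
      exact N20_le (K1i h (i + 1) b n)
    · rw [smul_mul_assoc, mul_smul_comm, mul_smul_comm]
      apply Submodule.smul_mem
      apply Submodule.smul_mem
      apply (N2_left h).2.2
      exact ih b n

theorem uzuz_comm (a b : ℕ) :
    uu y v * (z ^ a * (uu y v * (z ^ b * uu y v))) * z
      = z * (uu y v * (z ^ a * (uu y v * (z ^ b * uu y v)))) := by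
  set m := uu y v * (z ^ a * (uu y v * (z ^ b * uu y v))) with hm
  have e1 : m * y = y * m := by
    have hz : ∀ n, z ^ n * y = y * z ^ n := fun n => by simpa using zpow_ypow h n 1
    have hu := uy h
    have t1 : z ^ b * uu y v * y = ω • (y * (z ^ b * uu y v)) := by
      rw [mul_assoc, hu, mul_smul_comm, ← mul_assoc, hz, mul_assoc]
    have t2 : uu y v * (z ^ b * uu y v) * y = ω ^ 2 • (y * (uu y v * (z ^ b * uu y v))) := by
      rw [mul_assoc, t1, mul_smul_comm, ← mul_assoc, hu, smul_mul_assoc, smul_smul, mul_assoc,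
        pow_two]
    have t3 : z ^ a * (uu y v * (z ^ b * uu y v)) * y
        = ω ^ 2 • (y * (z ^ a * (uu y v * (z ^ b * uu y v)))) := by
      rw [mul_assoc, t2, mul_smul_comm, ← mul_assoc, hz, mul_assoc]
    rw [hm, mul_assoc, t3, mul_smul_comm, ← mul_assoc, hu, smul_mul_assoc, smul_smul, mul_assoc,
      ← pow_succ, omega3 h.hω, one_smul]
  have e2 : m * (y - algebraMap k R (ω ^ 2)) = (y - algebraMap k R (ω ^ 2)) * m := by
    rw [mul_sub, sub_mul, e1, Algebra.commutes]
  calc m * z = z * (y - algebraMap k R (ω ^ 2)) * m * z := by rw [h.h4, one_mul]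
    _ = z * (m * (y - algebraMap k R (ω ^ 2))) * z := by rw [e2]; noncomm_ring
    _ = z * m * ((y - algebraMap k R (ω ^ 2)) * z) := by noncomm_ring
    _ = z * m := by rw [h.h5, mul_one]

theorem NS_v : ∀ r ∈ NS k x y z v, v * r ∈ NS k x y z v := by
  intro r hr
  refine left_span ?_ hr
  rintro w ⟨i, b, n0, n1, n2, c, rfl⟩
  have e1 : v * EE x y z v i b n0 n1 n2 c
      = (v * (x ^ i * (y ^ b * (z ^ n0 * uu y v)))) * (z ^ n1 * (uu y v * (z ^ n2 * uu y v ^ c))) := by
    simp only [EE, mul_assoc]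
  rw [e1]
  refine right_span ?_ (K1i h i b n0)
  rintro w ⟨i', b', a, l, rfl⟩
  have hm : Commute (uu y v * (z ^ a * (uu y v * (z ^ (l + n1) * uu y v)))) z :=
    uzuz_comm h a (l + n1)
  have hm2 := (hm.pow_right n2).eq
  have e2 : EE x y z v i' b' 0 a l 0 * (z ^ n1 * (uu y v * (z ^ n2 * uu y v ^ c)))
      = x ^ i' * (y ^ b' * ((uu y v * (z ^ a * (uu y v * (z ^ (l + n1) * uu y v)))) * z ^ n2
        * uu y v ^ c)) := by
    simp only [EE, pow_zero, one_mul, mul_one, mul_assoc, pow_add]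
  rw [e2, hm2]
  have e3 : x ^ i' * (y ^ b' * (z ^ n2 * (uu y v * (z ^ a * (uu y v * (z ^ (l + n1) * uu y v))))
        * uu y v ^ c)) = EE x y z v i' b' n2 a (l + n1) (c + 1) := by
    simp only [EE, mul_assoc, pow_succ']
  rw [e3]
  exact EE_mem _ _ _ _ _ _

theorem N2_right_z : ∀ r ∈ N2 k x y z v, r * z ∈ N2 k x y z v := by
  intro r hr
  refine right_span ?_ hr
  rintro w ⟨i, b, n0, n1, n2, rfl⟩
  have : EE x y z v i b n0 n1 n2 0 * z = EE x y z v i b n0 n1 (n2 + 1) 0 := by
    simp only [EE, pow_zero, mul_one, mul_assoc, pow_succ]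
  rw [this]
  exact EE_mem2 _ _ _ _ _

theorem N2_right_y : ∀ r ∈ N2 k x y z v, r * y ∈ N2 k x y z v := by
  intro r hr
  refine right_span ?_ hr
  rintro w ⟨i, b, n0, n1, n2, rfl⟩
  have hz : ∀ n, z ^ n * y = y * z ^ n := fun n => by simpa using zpow_ypow h n 1
  have hu := uy h
  have hzr : ∀ n (r : R), z ^ n * (y * r) = y * (z ^ n * r) := fun n r => by
    rw [← mul_assoc, hz, mul_assoc]
  have hur : ∀ (r : R), uu y v * (y * r) = ω • (y * (uu y v * r)) := fun r => by
    rw [← mul_assoc, hu, smul_mul_assoc, mul_assoc]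
  have : EE x y z v i b n0 n1 n2 0 * y = ω ^ 2 • EE x y z v i (b + 1) n0 n1 n2 0 := by
    simp only [EE, pow_zero, mul_one, mul_assoc, hz, hur, hzr, mul_smul_comm, smul_smul]
    rw [pow_two, pow_succ y b]
    simp only [mul_assoc]
  rw [this]
  exact Submodule.smul_mem _ _ (EE_mem2 _ _ _ _ _)

theorem N2_right_x : ∀ r ∈ N2 k x y z v, r * x ∈ N2 k x y z v := by
  intro r hr
  refine right_span ?_ hr
  rintro w ⟨i, b, n0, n1, n2, rfl⟩
  have hux : ∀ (r : R), uu y v * (x * r) = ω ^ 2 • (x * (uu y v * r)) := fun r => by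
    rw [← mul_assoc, ux h, smul_mul_assoc, mul_assoc]
  have hzx : ∀ (n : ℕ) (r : R), z ^ n * (x * r) = x * (z ^ n * r) - (n : k) • (z ^ (n + 1) * r) :=
    fun n r => by rw [← mul_assoc, zpow_x h, sub_mul, mul_assoc, smul_mul_assoc]
  have e1 : EE x y z v i b n0 n1 n2 0 * x
      = x ^ i * (y ^ b * (z ^ n0 * (uu y v * (z ^ n1 * (uu y v * z ^ n2)) * x))) := by
    simp only [EE, pow_zero, mul_one, mul_assoc]
  have m : ∀ a c : ℕ, uu y v * (z ^ a * (uu y v * z ^ c)) ∈ N2 k x y z v := by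
    intro a c
    have := EE_mem2 (k := k) (x := x) (y := y) (z := z) (v := v) 0 0 0 a c
    simpa [EE] using this
  have e2 : uu y v * (z ^ n1 * (uu y v * z ^ n2)) * x
      = (ω ^ 2 * ω ^ 2) • (x * (uu y v * (z ^ n1 * (uu y v * z ^ n2))))
        - (ω ^ 2 * (n1 : k)) • (uu y v * (z ^ (n1 + 1) * (uu y v * z ^ n2)))
        - (n2 : k) • (uu y v * (z ^ n1 * (uu y v * z ^ (n2 + 1)))) := by
    simp only [mul_assoc]
    rw [zpow_x h, mul_sub, hux, mul_sub, mul_sub, mul_smul_comm, hzx, smul_sub, mul_sub,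
      mul_smul_comm, hux]
    simp only [mul_smul_comm, smul_smul]
  rw [e1, e2]
  apply N2_left_mon h
  refine sub_mem (sub_mem ?_ ?_) ?_
  · exact Submodule.smul_mem _ _ ((N2_left h).1 _ (m _ _))
  · exact Submodule.smul_mem _ _ (m _ _)
  · exact Submodule.smul_mem _ _ (m _ _)

theorem N2_right_T0 {r b : R} (hr : r ∈ N2 k x y z v) (hb : b ∈ LS k x y z 1) :
    r * b ∈ N2 k x y z v := by
  refine left_span ?_ hb
  rintro w ⟨i, b, n, rfl⟩
  rw [mul_one, ← mul_assoc, ← mul_assoc]
  exact pow_right' (N2_right_z h) _ _ (pow_right' (N2_right_y h) _ _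
    (pow_right' (N2_right_x h) _ _ hr))

theorem LS_mul {a r G : R} (ha : a ∈ LS k x y z 1) (hr : r ∈ LS k x y z G) :
    a * r ∈ LS k x y z G := by
  refine right_span ?_ ha
  rintro w ⟨i, b, n, rfl⟩
  rw [mul_one, mul_assoc, mul_assoc]
  exact pow_left (LS_x G) i _ (pow_left (LS_y h G) b _ (pow_left (LS_z h G) n _ hr))

theorem NS_left_T0 {a r : R} (ha : a ∈ LS k x y z 1) (hr : r ∈ NS k x y z v) :
    a * r ∈ NS k x y z v := by
  refine right_span ?_ ha
  rintro w ⟨i, b, n, rfl⟩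
  rw [mul_one, mul_assoc, mul_assoc]
  exact pow_left (NS_left h).1 i _ (pow_left (NS_left h).2.1 b _ (pow_left (NS_left h).2.2 n _ hr))

theorem vav {a : R} (ha : a ∈ LS k x y z 1) : v * a * v ∈ N2 k x y z v := by
  have : v * a * v = (v * a) * v := rfl
  have h1 : ∀ r ∈ LS k x y z 1, v * r * v ∈ N2 k x y z v := by
    intro r hr
    induction hr using Submodule.span_induction with
    | mem w hw =>
      obtain ⟨i, b, n, rfl⟩ := hw
      have := K1ii h i b n
      simpa only [mul_one, mul_assoc] using this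
    | zero => simp
    | add a b _ _ ha hb => rw [mul_add, add_mul]; exact add_mem ha hb
    | smul c a _ ha => rw [mul_smul_comm, smul_mul_assoc]; exact Submodule.smul_mem _ _ ha
  exact h1 a ha

end

/-- `T₁` -/
def T1 (k : Type) [Field k] {R : Type} [Ring R] [Algebra k R] (x y z v : R) : Submodule k R :=
  Submodule.span k {w | ∃ a ∈ LS k x y z 1, ∃ b ∈ LS k x y z 1, w = a * (v * b)}

section
variable (h : Rel ω x y z v)
include h

theorem T1_T1 {r s : R} (hr : r ∈ T1 k x y z v) (hs : s ∈ T1 k x y z v) :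
    r * s ∈ NS k x y z v := by
  refine left_span ?_ hs
  rintro w ⟨a', ha', b', hb', rfl⟩
  refine right_span ?_ hr
  rintro w ⟨a, ha, b, hb, rfl⟩
  have e : a * (v * b) * (a' * (v * b')) = a * ((v * (b * a') * v) * b') := by
    simp only [mul_assoc]
  rw [e]
  exact NS_left_T0 h ha (N2_le (N2_right_T0 h (vav h (LS_mul h hb ha')) hb'))

theorem T1_left : (∀ r ∈ T1 k x y z v, x * r ∈ T1 k x y z v) ∧
    (∀ r ∈ T1 k x y z v, y * r ∈ T1 k x y z v) ∧
    (∀ r ∈ T1 k x y z v, z * r ∈ T1 k x y z v) := by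
  refine ⟨?_, ?_, ?_⟩ <;>
  · intro r hr
    refine left_span ?_ hr
    rintro w ⟨a, ha, b, hb, rfl⟩
    rw [← mul_assoc]
    apply Submodule.subset_span
    refine ⟨_, ?_, b, hb, rfl⟩
    first
      | exact LS_x _ _ ha
      | exact LS_y h _ _ ha
      | exact LS_z h _ _ ha

theorem one_mem_T0 : (1 : R) ∈ LS k x y z 1 := by
  simpa using LS_mem (k := k) (x := x) (y := y) (z := z) 1 0 0 0

theorem T0_v : ∀ r ∈ LS k x y z 1, v * r ∈ T1 k x y z v := by
  intro r hr
  apply Submodule.subset_span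
  exact ⟨1, one_mem_T0 h, r, hr, by rw [one_mul]⟩

theorem T1_v : ∀ r ∈ T1 k x y z v, v * r ∈ NS k x y z v := by
  intro r hr
  refine left_span ?_ hr
  rintro w ⟨a, ha, b, hb, rfl⟩
  have e : v * (a * (v * b)) = (v * a * v) * b := by simp only [mul_assoc]
  rw [e]
  exact N2_le (N2_right_T0 h (vav h ha) hb)

theorem word_cases (l : List (Fin 4)) : (l.map ![x, y, z, v]).prod ∈ LS k x y z 1 ∨
    (l.map ![x, y, z, v]).prod ∈ T1 k x y z v ∨ (l.map ![x, y, z, v]).prod ∈ NS k x y z v := by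
  induction l with
  | nil => left; simpa using one_mem_T0 h
  | cons i l ih =>
    rw [List.map_cons, List.prod_cons]
    rcases ih with ih | ih | ih
    · fin_cases i
      · exact Or.inl (LS_x _ _ ih)
      · exact Or.inl (LS_y h _ _ ih)
      · exact Or.inl (LS_z h _ _ ih)
      · exact Or.inr (Or.inl (T0_v h _ ih))
    · fin_cases i
      · exact Or.inr (Or.inl ((T1_left h).1 _ ih))
      · exact Or.inr (Or.inl ((T1_left h).2.1 _ ih))
      · exact Or.inr (Or.inl ((T1_left h).2.2 _ ih))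
      · exact Or.inr (Or.inr (T1_v h _ ih))
    · fin_cases i
      · exact Or.inr (Or.inr ((NS_left h).1 _ ih))
      · exact Or.inr (Or.inr ((NS_left h).2.1 _ ih))
      · exact Or.inr (Or.inr ((NS_left h).2.2 _ ih))
      · exact Or.inr (Or.inr (NS_v h _ ih))

end

end Pool.Agent.H18R2.BZD.Q2
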