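import Mathlib
import Pool.Agent.H18R2.BZD.A

set_option autoImplicit false
set_option linter.unusedSectionVars false
open Polynomial

namespace Pool.Agent.H18R2.BZD.Q2

variable {k : Type} [Field k] {R : Type} [Ring R] [Algebra k R] {ω : k} {x y z v : R}

/-- iterated skew commutators -/
def vj (ω : k) (x v : R) : ℕ → R
  | 0 => v
  | j + 1 => ω • (vj ω x v j * x) - x * vj ω x v j

section
variable (h : Rel ω x y z v)
include h

theorem xy : x * y = y * x - 1 := by rw [h.h1]; abel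

theorem vj_y (j : ℕ) : vj ω x v j * y = ω • (y * vj ω x v j) := by
  induction j with
  | zero => exact h.h2
  | succ j ih =>
    have e1 : vj ω x v j * x * y = ω • (y * (vj ω x v j * x)) - vj ω x v j := by
      rw [mul_assoc, xy h, mul_sub, mul_one, ← mul_assoc, ih, smul_mul_assoc, mul_assoc]
    have e2 : x * vj ω x v j * y = ω • (y * (x * vj ω x v j)) - ω • vj ω x v j := by
      rw [mul_assoc, ih, mul_smul_comm, ← mul_assoc, xy h, sub_mul, one_mul, smul_sub, mul_assoc]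
    simp only [vj]
    rw [sub_mul, smul_mul_assoc, e1, e2, mul_sub, smul_sub, smul_sub, mul_smul_comm]
    abel

theorem y1_vj (j : ℕ) : (y - 1) * vj ω x v (j + 1) = -(((j + 1 : ℕ) : k) • vj ω x v j) := by
  have e0 : (y - 1) * x = x * (y - 1) + 1 := by rw [sub_mul, h.h1, mul_sub]; simp; abel
  induction j with
  | zero =>
    simp only [vj]
    rw [mul_sub, mul_smul_comm, ← mul_assoc (y - 1) v x, h.h3, ← mul_assoc (y - 1) x v, e0, add_mul]
    simp [mul_assoc]
  | succ j ih =>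
    have e1 : (y - 1) * (vj ω x v (j + 1) * x) = -(((j + 1 : ℕ) : k) • (vj ω x v j * x)) := by
      rw [← mul_assoc, ih, neg_mul, smul_mul_assoc]
    have e2 : (y - 1) * (x * vj ω x v (j + 1))
        = -(((j + 1 : ℕ) : k) • (x * vj ω x v j)) + vj ω x v (j + 1) := by
      rw [← mul_assoc, e0, add_mul, one_mul, mul_assoc, ih, mul_neg, mul_smul_comm]
    have e3 : vj ω x v (j + 1 + 1) = ω • (vj ω x v (j + 1) * x) - x * vj ω x v (j + 1) := rfl
    have e4 : vj ω x v (j + 1) = ω • (vj ω x v j * x) - x * vj ω x v j := rfl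
    rw [e3, mul_sub, mul_smul_comm, e1, e2]
    rw [show (((j + 1 + 1 : ℕ)) : k) = ((j + 1 : ℕ) : k) + 1 by push_cast; ring, add_smul, one_smul]
    nth_rewrite 2 [e4]
    rw [smul_sub, smul_neg, smul_comm ω]
    abel

theorem vj_x (j : ℕ) : vj ω x v j * x = ω ^ 2 • (x * vj ω x v j + vj ω x v (j + 1)) := by
  have e4 : vj ω x v (j + 1) = ω • (vj ω x v j * x) - x * vj ω x v j := rfl
  rw [e4, add_sub_cancel, smul_smul, show ω ^ 2 * ω = ω ^ 3 by ring, omega3 h.hω, one_smul]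

end

/-! ### filtered spaces -/

/-- the span of the `x^i y^b z^n G` with `i ≤ e` -/
def LE (k : Type) [Field k] {R : Type} [Ring R] [Algebra k R] (x y z G : R) (e : ℕ) :
    Submodule k R :=
  Submodule.span k {w | ∃ i b n, i ≤ e ∧ w = x ^ i * (y ^ b * (z ^ n * G))}

theorem LE_mem (G : R) (e i b n : ℕ) (hi : i ≤ e) :
    x ^ i * (y ^ b * (z ^ n * G)) ∈ LE k x y z G e := Submodule.subset_span ⟨i, b, n, hi, rfl⟩

theorem LE_mono (G : R) {e e' : ℕ} (h : e ≤ e') : LE k x y z G e ≤ LE k x y z G e' :=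
  Submodule.span_mono (fun _ ⟨i, b, n, hi, hw⟩ => ⟨i, b, n, hi.trans h, hw⟩)

theorem LE_le (G : R) (e : ℕ) : LE k x y z G e ≤ LS k x y z G :=
  Submodule.span_mono (fun _ ⟨i, b, n, _, hw⟩ => ⟨i, b, n, hw⟩)

theorem LE_x (G : R) (e : ℕ) : ∀ r ∈ LE k x y z G e, x * r ∈ LE k x y z G (e + 1) := by
  intro r hr
  refine left_span ?_ hr
  rintro w ⟨i, b, n, hi, rfl⟩
  rw [← mul_assoc, ← pow_succ']
  exact LE_mem _ _ _ _ _ (by omega)

section
variable (h : Rel ω x y z v)
include h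

theorem LE_y (G : R) (e : ℕ) : ∀ r ∈ LE k x y z G e, y * r ∈ LE k x y z G e := by
  intro r hr
  refine left_span ?_ hr
  rintro w ⟨i, b, n, hi, rfl⟩
  rcases i with _ | i
  · rw [pow_zero, one_mul, ← mul_assoc, ← pow_succ']
    simpa using LE_mem (k := k) (x := x) (y := y) (z := z) G e 0 (b + 1) n (Nat.zero_le _)
  · rw [← mul_assoc, y_xpow h, add_mul, smul_mul_assoc, mul_assoc, ← mul_assoc y, ← pow_succ']
    exact add_mem (LE_mem _ _ _ _ _ hi) (Submodule.smul_mem _ _ (LE_mem _ _ _ _ _ (by omega)))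

theorem LE_zpow (G : R) (i : ℕ) : ∀ m b n e, i ≤ e → z ^ m * (x ^ i * (y ^ b * (z ^ n * G))) ∈
    LE k x y z G e := by
  induction i with
  | zero =>
    intro m b n e _
    rw [pow_zero, one_mul, ← mul_assoc, zpow_ypow h, mul_assoc, ← mul_assoc (z ^ m), ← pow_add]
    simpa using LE_mem (k := k) (x := x) (y := y) (z := z) G e 0 b (m + n) (Nat.zero_le _)
  | succ i ih =>
    intro m b n e he
    rw [pow_succ', mul_assoc, ← mul_assoc (z ^ m), zpow_x h, sub_mul, mul_assoc, smul_mul_assoc]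
    refine sub_mem ?_ (Submodule.smul_mem _ _ (ih (m + 1) b n e (by omega)))
    exact LE_mono _ he (LE_x _ _ _ (ih m b n i le_rfl))

theorem LE_z (G : R) (e : ℕ) : ∀ r ∈ LE k x y z G e, z * r ∈ LE k x y z G e := by
  intro r hr
  refine left_span ?_ hr
  rintro w ⟨i, b, n, hi, rfl⟩
  have := LE_zpow h G i 1 b n e hi
  rwa [pow_one] at this

end

/-- the elements with one `v`, filtered -/
def T1E (ω : k) (x y z v : R) (e : ℕ) : Submodule k R :=
  Submodule.span k {w | ∃ i b n0 j n1, i + j ≤ e ∧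
    w = x ^ i * (y ^ b * (z ^ n0 * (vj ω x v j * z ^ n1)))}

theorem T1E_mem (e i b n0 j n1 : ℕ) (he : i + j ≤ e) :
    x ^ i * (y ^ b * (z ^ n0 * (vj ω x v j * z ^ n1))) ∈ T1E ω x y z v e :=
  Submodule.subset_span ⟨i, b, n0, j, n1, he, rfl⟩

theorem T1E_mono {e e' : ℕ} (h : e ≤ e') : T1E ω x y z v e ≤ T1E ω x y z v e' :=
  Submodule.span_mono (fun _ ⟨i, b, n0, j, n1, hi, hw⟩ => ⟨i, b, n0, j, n1, hi.trans h, hw⟩)

theorem LE_le_T1E (e i j n1 : ℕ) (he : i + j ≤ e) :
    LE k x y z (vj ω x v j * z ^ n1) i ≤ T1E ω x y z v e := by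
  apply Submodule.span_le.mpr
  rintro w ⟨i', b, n, hi, rfl⟩
  exact T1E_mem _ _ _ _ _ _ (by omega)

theorem T1E_x (e : ℕ) : ∀ r ∈ T1E ω x y z v e, x * r ∈ T1E ω x y z v (e + 1) := by
  intro r hr
  refine left_span ?_ hr
  rintro w ⟨i, b, n0, j, n1, hi, rfl⟩
  rw [← mul_assoc, ← pow_succ']
  exact T1E_mem _ _ _ _ _ _ (by omega)

section
variable (h : Rel ω x y z v)
include h

theorem T1E_y (e : ℕ) : ∀ r ∈ T1E ω x y z v e, y * r ∈ T1E ω x y z v e := by
  intro r hr
  refine left_span ?_ hr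
  rintro w ⟨i, b, n0, j, n1, hi, rfl⟩
  exact LE_le_T1E e i j n1 hi (LE_y h _ _ _ (LE_mem _ _ _ _ _ le_rfl))

theorem T1E_z (e : ℕ) : ∀ r ∈ T1E ω x y z v e, z * r ∈ T1E ω x y z v e := by
  intro r hr
  refine left_span ?_ hr
  rintro w ⟨i, b, n0, j, n1, hi, rfl⟩
  exact LE_le_T1E e i j n1 hi (LE_z h _ _ _ (LE_mem _ _ _ _ _ le_rfl))

theorem vj_ypow (j b : ℕ) : vj ω x v j * y ^ b = ω ^ b • (y ^ b * vj ω x v j) := by
  induction b with
  | zero => simp
  | succ b ih =>
    rw [pow_succ, ← mul_assoc, ih, smul_mul_assoc, mul_assoc, vj_y h, mul_smul_comm, smul_smul,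
      ← pow_succ, ← mul_assoc]

theorem vj_mon (i : ℕ) : ∀ j b n, vj ω x v j * (x ^ i * (y ^ b * z ^ n)) ∈
    T1E ω x y z v (i + j) := by
  induction i with
  | zero =>
    intro j b n
    rw [pow_zero, one_mul, ← mul_assoc, vj_ypow h, smul_mul_assoc, mul_assoc]
    apply Submodule.smul_mem
    have := T1E_mem (ω := ω) (x := x) (y := y) (z := z) (v := v) (0 + j) 0 b 0 j n le_rfl
    simpa using this
  | succ i ih =>
    intro j b n
    have e : vj ω x v j * (x ^ (i + 1) * (y ^ b * z ^ n))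
        = ω ^ 2 • (x * (vj ω x v j * (x ^ i * (y ^ b * z ^ n)))
          + vj ω x v (j + 1) * (x ^ i * (y ^ b * z ^ n))) := by
      rw [pow_succ', mul_assoc, ← mul_assoc (vj ω x v j), vj_x h, smul_mul_assoc, add_mul,
        mul_assoc]
    rw [e]
    apply Submodule.smul_mem
    apply add_mem
    · have := T1E_x (i + j) _ (ih j b n)
      rwa [show i + j + 1 = i + 1 + j by ring] at this
    · have := ih (j + 1) b n
      rwa [show i + (j + 1) = i + 1 + j by ring] at this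

theorem v_LE (e : ℕ) : ∀ r ∈ LE k x y z 1 e, v * r ∈ T1E ω x y z v e := by
  intro r hr
  refine left_span ?_ hr
  rintro w ⟨i, b, n, hi, rfl⟩
  have := vj_mon h i 0 b n
  rw [mul_one]
  exact T1E_mono (by omega) this

theorem T1_right {r c : R} (hr : r ∈ T1 k x y z v) (hc : c ∈ LS k x y z 1) :
    r * c ∈ T1 k x y z v := by
  refine right_span ?_ hr
  rintro w ⟨a, ha, b, hb, rfl⟩
  apply Submodule.subset_span
  exact ⟨a, ha, b * c, LS_mul h hb hc, by simp only [mul_assoc]⟩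

theorem x_mem_T0 : x ∈ LS k x y z 1 := by
  simpa using LS_mem (k := k) (x := x) (y := y) (z := z) 1 1 0 0

theorem z_mem_T0 (n : ℕ) : z ^ n ∈ LS k x y z 1 := by
  simpa using LS_mem (k := k) (x := x) (y := y) (z := z) 1 0 0 n

theorem vj_T1 (j : ℕ) : vj ω x v j ∈ T1 k x y z v := by
  induction j with
  | zero =>
    have := T0_v h _ (one_mem_T0 h)
    rwa [mul_one] at this
  | succ j ih =>
    exact sub_mem (Submodule.smul_mem _ _ (T1_right h ih (x_mem_T0 h))) ((T1_left h).1 _ ih)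

theorem T1E_le_T1 (e : ℕ) : T1E ω x y z v e ≤ T1 k x y z v := by
  apply Submodule.span_le.mpr
  rintro w ⟨i, b, n0, j, n1, hi, rfl⟩
  exact pow_left (T1_left h).1 i _ (pow_left (T1_left h).2.1 b _ (pow_left (T1_left h).2.2 n0 _
    (T1_right h (vj_T1 h j) (z_mem_T0 h n1))))

theorem word_casesE (l : List (Fin 4)) : (l.map ![x, y, z, v]).prod ∈ LE k x y z 1 l.length ∨
    (l.map ![x, y, z, v]).prod ∈ T1E ω x y z v l.length ∨
    (l.map ![x, y, z, v]).prod ∈ NS k x y z v := by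
  induction l with
  | nil =>
    left
    simpa using LE_mem (k := k) (x := x) (y := y) (z := z) 1 0 0 0 0 le_rfl
  | cons i l ih =>
    rw [List.map_cons, List.prod_cons, List.length_cons]
    rcases ih with ih | ih | ih
    · fin_cases i
      · exact Or.inl (LE_x _ _ _ ih)
      · exact Or.inl (LE_mono _ (by omega) (LE_y h _ _ _ ih))
      · exact Or.inl (LE_mono _ (by omega) (LE_z h _ _ _ ih))
      · exact Or.inr (Or.inl (T1E_mono (by omega) (v_LE h _ _ ih)))
    · fin_cases i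
      · exact Or.inr (Or.inl (T1E_x _ _ ih))
      · exact Or.inr (Or.inl (T1E_mono (by omega) (T1E_y h _ _ ih)))
      · exact Or.inr (Or.inl (T1E_mono (by omega) (T1E_z h _ _ ih)))
      · exact Or.inr (Or.inr (T1_v h _ (T1E_le_T1 h _ ih)))
    · fin_cases i
      · exact Or.inr (Or.inr ((NS_left h).1 _ ih))
      · exact Or.inr (Or.inr ((NS_left h).2.1 _ ih))
      · exact Or.inr (Or.inr ((NS_left h).2.2 _ ih))
      · exact Or.inr (Or.inr (NS_v h _ ih))

end

/-! ### common denominators -/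

/-- the typical elements with common denominators -/
def GG (ω : k) (x y z v : R) (n e : ℕ) : ℕ → R
  | 0 => z ^ n
  | 1 => z ^ n * (vj ω x v e * z ^ n)
  | c + 2 => z ^ n * (uu y v * (z ^ n * (uu y v * (z ^ n * uu y v ^ c))))

/-- the elements with denominators bounded by `n` -/
def Sp (ω : k) (x y z v : R) (n e : ℕ) : Submodule k R :=
  Submodule.span k (Set.range fun i : ℕ × ℕ × ℕ => x ^ i.1 * (y ^ i.2.1 * GG ω x y z v n e i.2.2))

theorem Sp_mem (n e i b c : ℕ) : x ^ i * (y ^ b * GG ω x y z v n e c) ∈ Sp ω x y z v n e :=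
  Submodule.subset_span ⟨(i, b, c), rfl⟩

theorem GG_mem (n e c : ℕ) : GG ω x y z v n e c ∈ Sp ω x y z v n e := by
  simpa using Sp_mem (ω := ω) (x := x) (y := y) (z := z) (v := v) n e 0 0 c

theorem Sp_x (n e : ℕ) : ∀ r ∈ Sp ω x y z v n e, x * r ∈ Sp ω x y z v n e := by
  intro r hr
  refine left_span ?_ hr
  rintro w ⟨⟨i, b, c⟩, rfl⟩
  simp only
  rw [← mul_assoc, ← pow_succ']
  exact Sp_mem _ _ _ _ _

section
variable (h : Rel ω x y z v)
include h

theorem Sp_y (n e : ℕ) : ∀ r ∈ Sp ω x y z v n e, y * r ∈ Sp ω x y z v n e := by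
  intro r hr
  refine left_span ?_ hr
  rintro w ⟨⟨i, b, c⟩, rfl⟩
  simp only
  rcases i with _ | i
  · rw [pow_zero, one_mul, ← mul_assoc, ← pow_succ']
    simpa using Sp_mem (ω := ω) (x := x) (y := y) (z := z) (v := v) n e 0 (b + 1) c
  · rw [← mul_assoc, y_xpow h, add_mul, smul_mul_assoc, mul_assoc, ← mul_assoc y, ← pow_succ']
    exact add_mem (Sp_mem _ _ _ _ _) (Submodule.smul_mem _ _ (Sp_mem _ _ _ _ _))

theorem Sp_aeval (n e : ℕ) (f : k[X]) :
    ∀ r ∈ Sp ω x y z v n e, aeval y f * r ∈ Sp ω x y z v n e := by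
  intro r hr
  induction f using Polynomial.induction_on' with
  | add p q hp hq => rw [map_add, add_mul]; exact add_mem hp hq
  | monomial i a =>
    rw [aeval_monomial, mul_assoc, ← Algebra.smul_def]
    exact Submodule.smul_mem _ _ (pow_left (Sp_y h n e) i _ hr)

theorem Sp_mon (n e i b : ℕ) {r : R} (hr : r ∈ Sp ω x y z v n e) :
    x ^ i * (y ^ b * r) ∈ Sp ω x y z v n e :=
  pow_left (Sp_x n e) i _ (pow_left (Sp_y h n e) b _ hr)

theorem z_aeval (n : ℕ) (f : k[X]) (r : R) : z ^ n * (aeval y f * r) = aeval y f * (z ^ n * r) := by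
  have : Commute (z ^ n) (aeval y f) := by
    induction f using Polynomial.induction_on' with
    | add p q hp hq => rw [map_add]; exact hp.add_right hq
    | monomial i a =>
      rw [aeval_monomial]
      exact (Algebra.commute_algebraMap_right a (z ^ n)).mul_right (zpow_ypow h n i)
  rw [← mul_assoc, this.eq, mul_assoc]

omit h in
theorem skew_aeval {t : R} (ht : t * y = ω • (y * t)) (f : k[X]) (r : R) :
    t * (aeval y f * r) = aeval y (f.comp (C ω * X)) * (t * r) := by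
  have hp : ∀ b, t * y ^ b = ω ^ b • (y ^ b * t) := by
    intro b
    induction b with
    | zero => simp
    | succ b ih =>
      rw [pow_succ, ← mul_assoc, ih, smul_mul_assoc, mul_assoc, ht, mul_smul_comm, smul_smul,
        ← pow_succ, ← mul_assoc]
  have : t * aeval y f = aeval y (f.comp (C ω * X)) * t := by
    induction f using Polynomial.induction_on' with
    | add p q hp hq => rw [map_add, add_comp, map_add, mul_add, add_mul, hp, hq]
    | monomial i a =>
      rw [aeval_monomial, ← Algebra.smul_def, mul_smul_comm, hp, monomial_comp]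
      simp only [mul_pow, map_mul, map_pow, aeval_C, aeval_X, Algebra.smul_def, mul_assoc]
  rw [← mul_assoc, this, mul_assoc]

/-- `y - ω²` -/
noncomputable def qq (ω : k) : k[X] := X - C (ω ^ 2)

theorem z_expand (n0 n : ℕ) (hn : n0 ≤ n) : z ^ n0 = aeval y (qq ω ^ (n - n0)) * z ^ n := by
  have e1 : ∀ m, aeval y (qq ω ^ m) * z ^ m = 1 := by
    intro m
    induction m with
    | zero => simp
    | succ m ih =>
      rw [pow_succ, map_mul, pow_succ', mul_assoc, ← mul_assoc _ z]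
      have : aeval y (qq ω) * z = 1 := by
        rw [qq, map_sub, aeval_X, aeval_C]; exact h.h5
      rw [this, one_mul, ih]
  obtain ⟨m, rfl⟩ : ∃ m, n = n0 + m := ⟨n - n0, by omega⟩
  rw [Nat.add_sub_cancel_left, add_comm, pow_add, ← mul_assoc, e1, one_mul]

theorem z_expand' (n0 n : ℕ) (hn : n0 ≤ n) (r : R) :
    z ^ n0 * r = aeval y (qq ω ^ (n - n0)) * (z ^ n * r) := by
  rw [z_expand h n0 n hn, mul_assoc]

theorem T0_Sp (n e n0 i b : ℕ) (hn : n0 ≤ n) :
    x ^ i * (y ^ b * (z ^ n0 * 1)) ∈ Sp ω x y z v n e := by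
  apply Sp_mon h
  rw [z_expand' h n0 n hn, mul_one]
  exact Sp_aeval h _ _ _ _ (GG_mem n e 0)

theorem T1_Sp (n e n0 n1 : ℕ) (hn0 : n0 ≤ n) (hn1 : n1 ≤ n) :
    z ^ n0 * (vj ω x v e * z ^ n1) ∈ Sp ω x y z v n e := by
  rw [z_expand h n1 n hn1, skew_aeval (vj_y h e), z_aeval h]
  apply Sp_aeval h
  rw [z_expand' h n0 n hn0]
  apply Sp_aeval h
  exact GG_mem n e 1

theorem NS_Sp (n e n0 n1 n2 i b c : ℕ) (hn0 : n0 ≤ n) (hn1 : n1 ≤ n) (hn2 : n2 ≤ n) :
    EE x y z v i b n0 n1 n2 c ∈ Sp ω x y z v n e := by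
  apply Sp_mon h
  have hu := uy h
  rw [z_expand' h n2 n hn2, skew_aeval hu, z_aeval h, skew_aeval hu, z_aeval h]
  apply Sp_aeval h
  rw [z_expand' h n1 n hn1, skew_aeval hu, z_aeval h]
  apply Sp_aeval h
  rw [z_expand' h n0 n hn0]
  apply Sp_aeval h
  exact GG_mem n e (c + 2)

theorem Sp_mono {n n' : ℕ} (e : ℕ) (hn : n ≤ n') : Sp ω x y z v n e ≤ Sp ω x y z v n' e := by
  apply Submodule.span_le.mpr
  rintro w ⟨⟨i, b, c⟩, rfl⟩
  simp only
  match c with
  | 0 =>
    have := T0_Sp h n' e n i b hn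
    rwa [mul_one] at this
  | 1 => exact Sp_mon h _ _ _ _ (T1_Sp h n' e n n hn hn)
  | c + 2 => exact NS_Sp h n' e n n n i b c hn hn hn

theorem Sp_sup (e : ℕ) {r : R} (hr : r ∈ ⨆ n, Sp ω x y z v n e) : ∃ n, r ∈ Sp ω x y z v n e := by
  rwa [Submodule.mem_iSup_of_directed] at hr
  intro a b
  exact ⟨max a b, Sp_mono h e (le_max_left _ _), Sp_mono h e (le_max_right _ _)⟩

theorem T0_le (e : ℕ) : LS k x y z 1 ≤ ⨆ n, Sp ω x y z v n e := by
  apply Submodule.span_le.mpr
  rintro w ⟨i, b, n, rfl⟩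
  exact (le_iSup (fun n => Sp ω x y z v n e) n) (T0_Sp h n e n i b le_rfl)

theorem NS_le (e : ℕ) : NS k x y z v ≤ ⨆ n, Sp ω x y z v n e := by
  apply Submodule.span_le.mpr
  rintro w ⟨i, b, n0, n1, n2, c, rfl⟩
  exact (le_iSup (fun n => Sp ω x y z v n e) (max n0 (max n1 n2)))
    (NS_Sp h _ e n0 n1 n2 i b c (by omega) (by omega) (by omega))

theorem vj_top (e : ℕ) (he : ((e.factorial : ℕ) : k) ≠ 0) (m : ℕ) : m ≤ e → ∃ c : k,
    vj ω x v (e - m) = c • (aeval y ((X - 1 : k[X]) ^ m) * vj ω x v e) := by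
  induction m with
  | zero => intro _; exact ⟨1, by simp⟩
  | succ m ih =>
    intro hm
    obtain ⟨c, hc⟩ := ih (by omega)
    obtain ⟨j, hj⟩ : ∃ j, e - m = j + 1 := ⟨e - m - 1, by omega⟩
    have hj' : e - (m + 1) = j := by omega
    have hne : ((j + 1 : ℕ) : k) ≠ 0 := by
      intro h0
      apply he
      obtain ⟨q, hq⟩ := Nat.dvd_factorial (show 0 < j + 1 by omega) (show j + 1 ≤ e by omega)
      rw [hq, Nat.cast_mul, h0, zero_mul]
    have h1 := y1_vj h j
    rw [hj] at hc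
    rw [hc] at h1
    refine ⟨-(((j + 1 : ℕ) : k))⁻¹ * c, ?_⟩
    rw [hj']
    have h2 : vj ω x v j = -((((j + 1 : ℕ) : k))⁻¹ • (-(((j + 1 : ℕ) : k) • vj ω x v j))) := by
      rw [smul_neg, neg_neg, smul_smul, inv_mul_cancel₀ hne, one_smul]
    rw [h2, ← h1, pow_succ', map_mul, map_sub, aeval_X, map_one, mul_smul_comm, smul_smul,
      ← neg_smul, mul_assoc, neg_mul]

theorem T1E_le (e : ℕ) (he : ((e.factorial : ℕ) : k) ≠ 0) :
    T1E ω x y z v e ≤ ⨆ n, Sp ω x y z v n e := by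
  apply Submodule.span_le.mpr
  rintro w ⟨i, b, n0, j, n1, hij, rfl⟩
  refine (le_iSup (fun n => Sp ω x y z v n e) (max n0 n1)) ?_
  apply Sp_mon h
  obtain ⟨c, hc⟩ := vj_top h e he (e - j) (by omega)
  rw [show e - (e - j) = j by omega] at hc
  rw [hc, smul_mul_assoc, mul_smul_comm]
  apply Submodule.smul_mem
  rw [mul_assoc, z_aeval h]
  apply Sp_aeval h
  exact T1_Sp h _ e n0 n1 (by omega) (by omega)

/-- words of length at most `e` -/
theorem word_Sp (e : ℕ) (he : ((e.factorial : ℕ) : k) ≠ 0) (l : List (Fin 4)) (hl : l.length ≤ e) :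
    (l.map ![x, y, z, v]).prod ∈ ⨆ n, Sp ω x y z v n e := by
  rcases word_casesE h l with h1 | h1 | h1
  · exact T0_le h e (LE_le _ _ h1)
  · exact T1E_le h e he (T1E_mono hl h1)
  · exact NS_le h e h1

end

end Pool.Agent.H18R2.BZD.Q2
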