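import Mathlib

set_option autoImplicit false
open Polynomial

namespace Pool.Agent.H18R2.BZD

section lead
variable {k : Type} [Field k] {P : Type} [CommRing P] [Algebra k P]

/-- coefficientwise application of a linear map -/
noncomputable def cw (D : P →ₗ[k] P) : P[X] →ₗ[k] P[X] :=
  Polynomial.lsum (fun i => ((Polynomial.monomial i : P →ₗ[P] P[X]).restrictScalars k) ∘ₗ D)

theorem cw_coeff (D : P →ₗ[k] P) (f : P[X]) (n : ℕ) : (cw D f).coeff n = D (f.coeff n) := by
  induction f using Polynomial.induction_on' with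
  | add p q hp hq => rw [map_add, coeff_add, hp, hq, coeff_add, map_add]
  | monomial i a =>
    have : cw D (monomial i a) = monomial i (D a) := by
      simp [cw, Polynomial.lsum_apply, Polynomial.sum_monomial_index]
    rw [this, coeff_monomial, coeff_monomial]
    split_ifs <;> simp

/-- The operator `ξ - ∂`. -/
noncomputable def xo (D : P →ₗ[k] P) : Module.End k P[X] := LinearMap.mulLeft k X - cw D

theorem xo_coeff_succ (D : P →ₗ[k] P) (f : P[X]) (n : ℕ) :
    (xo D f).coeff (n + 1) = f.coeff n - D (f.coeff (n + 1)) := by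
  simp [xo, cw_coeff, coeff_X_mul]

theorem xo_lead (D : P →ₗ[k] P) (f : P[X]) (n : ℕ) (h : ∀ i, n < i → f.coeff i = 0) :
    (∀ i, n + 1 < i → (xo D f).coeff i = 0) ∧ (xo D f).coeff (n + 1) = f.coeff n := by
  constructor
  · intro i hi
    obtain ⟨j, rfl⟩ : ∃ j, i = j + 1 := ⟨i - 1, by omega⟩
    rw [xo_coeff_succ, h j (by omega), h (j + 1) (by omega)]; simp
  · rw [xo_coeff_succ, h (n + 1) (by omega)]; simp

theorem xo_pow_lead (D : P →ₗ[k] P) (a : ℕ) : ∀ (f : P[X]) (n : ℕ),
    (∀ i, n < i → f.coeff i = 0) →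
    (∀ i, n + a < i → ((xo D ^ a) f).coeff i = 0) ∧ ((xo D ^ a) f).coeff (n + a) = f.coeff n := by
  induction a with
  | zero => intro f n h; simpa using h
  | succ a ih =>
    intro f n h
    have h1 := xo_lead D f n h
    have h2 := ih (xo D f) (n + 1) h1.1
    rw [pow_succ, Module.End.mul_apply, show n + (a + 1) = n + 1 + a by ring]
    exact ⟨h2.1, h2.2.trans h1.2⟩

/-- multiplication operators -/
noncomputable def ml (k : Type) [Field k] {P : Type} [CommRing P] [Algebra k P] :
    P →ₐ[k] Module.End k P[X] :=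
  (Algebra.lmul k P[X]).comp (CAlgHom : P →ₐ[k] P[X])

theorem ml_apply (p : P) (f : P[X]) : ml k p f = C p * f := rfl

/-- normally ordered operators -/
noncomputable def NN (D : P →ₗ[k] P) : P[X] →ₗ[k] Module.End k P[X] :=
  Polynomial.lsum (fun a => (LinearMap.mulLeft k (xo D ^ a)) ∘ₗ (ml k (P := P)).toLinearMap)

theorem NN_monomial (D : P →ₗ[k] P) (a : ℕ) (p : P) :
    NN D (monomial a p) = xo D ^ a * ml k p := by
  simp [NN, Polynomial.lsum_apply, Polynomial.sum_monomial_index]

theorem NN_apply (D : P →ₗ[k] P) (Q f : P[X]) :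
    NN D Q f = ∑ a ∈ Finset.range (Q.natDegree + 1), (xo D ^ a) (C (Q.coeff a) * f) := by
  rw [NN, Polynomial.lsum_apply, Polynomial.sum_over_range]
  · rw [LinearMap.sum_apply]; rfl
  · intro n; simp

theorem NN_ne [IsDomain P] (D : P →ₗ[k] P) (Q f : P[X]) (hQ : Q ≠ 0) (hf : f ≠ 0) :
    NN D Q f ≠ 0 := by
  intro h
  have h1 : (NN D Q f).coeff (f.natDegree + Q.natDegree) = Q.leadingCoeff * f.leadingCoeff := by
    rw [NN_apply, finsetSum_coeff, Finset.sum_range_succ]
    have hz : ∀ a, ∀ i, f.natDegree < i → (C (Q.coeff a) * f).coeff i = 0 := by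
      intro a i hi
      rw [coeff_C_mul, coeff_eq_zero_of_natDegree_lt hi, mul_zero]
    rw [Finset.sum_eq_zero, zero_add]
    · rw [(xo_pow_lead D Q.natDegree _ f.natDegree (hz _)).2, coeff_C_mul]; rfl
    · intro a ha
      rw [Finset.mem_range] at ha
      exact (xo_pow_lead D a _ f.natDegree (hz _)).1 _ (by omega)
  rw [h, coeff_zero] at h1
  have := mul_ne_zero (leadingCoeff_ne_zero.mpr hQ) (leadingCoeff_ne_zero.mpr hf)
  exact this h1.symm

theorem xo_ml (D : Derivation k P P) (p : P) :
    xo (D : P →ₗ[k] P) * ml k p - ml k p * xo (D : P →ₗ[k] P) = ml k (-(D p)) := by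
  apply LinearMap.ext
  intro f
  apply Polynomial.ext
  intro n
  rcases n with _ | n
  · simp only [LinearMap.sub_apply, Module.End.mul_apply, ml_apply, xo, LinearMap.mulLeft_apply,
      coeff_sub, coeff_C_mul, mul_sub, cw_coeff]
    simp
    ring
  · simp only [LinearMap.sub_apply, Module.End.mul_apply, ml_apply, 
      coeff_sub, coeff_C_mul, mul_sub, xo_coeff_succ]
    simp
    ring

end lead

end Pool.Agent.H18R2.BZD
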