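import Mathlib
import Pool.Agent.H18R2.BZD.B
import Pool.Agent.H18R2.BZD.Lead

set_option autoImplicit false
set_option linter.unusedSectionVars false
open Polynomial

namespace Pool.Agent.H18R2.BZD.Q2

/-! ### The representation by differential operators with power series coefficients -/

section rep
variable (k : Type) [Field k] (ω : k)

/-- power series in `y` -/
abbrev P0 : Type := PowerSeries k

/-- the module -/
abbrev MM : Type := Polynomial (PowerSeries k)

noncomputable instance instRingE : Ring (Module.End k (MM k)) := inferInstance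
noncomputable instance instRingEX : Ring (Module.End k (MM k))[X] := Polynomial.ring

/-- `d/dy` -/
noncomputable def dP : Derivation k (P0 k) (P0 k) := PowerSeries.derivative k

/-- the substitution `y ↦ ω y` -/
noncomputable def s0 : P0 k →+* P0 k := PowerSeries.rescale ω

theorem s0_alg (c : k) (f : P0 k) : s0 k ω (c • f) = c • s0 k ω f := by
  ext n
  simp [s0, PowerSeries.coeff_rescale]
  ring

theorem dP_s0 (f : P0 k) : dP k (s0 k ω f) = ω • s0 k ω (dP k f) := by
  ext n
  simp [s0, dP, PowerSeries.coeff_rescale, PowerSeries.coeff_derivative]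
  ring

/-- the operator `ξ^a f(y) ↦ ω^(2a) ξ^a f(ω y)` -/
noncomputable def sg : Module.End k (MM k) where
  toFun f := (f.map (s0 k ω)).comp (C (algebraMap k (P0 k) (ω ^ 2)) * X)
  map_add' f g := by rw [Polynomial.map_add, add_comp]
  map_smul' c f := by
    rw [RingHom.id_apply]
    apply Polynomial.ext
    intro n
    rw [comp_C_mul_X_coeff, coeff_smul, comp_C_mul_X_coeff, coeff_map, coeff_map, coeff_smul,
      s0_alg, smul_mul_assoc]

theorem sg_apply (f : MM k) :
    sg k ω f = (f.map (s0 k ω)).comp (C (algebraMap k (P0 k) (ω ^ 2)) * X) := rfl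

theorem sg_coeff (f : MM k) (n : ℕ) :
    (sg k ω f).coeff n = (ω ^ 2) ^ n • s0 k ω (f.coeff n) := by
  rw [sg_apply, comp_C_mul_X_coeff, coeff_map, ← map_pow, mul_comm, ← Algebra.smul_def]

theorem sg_ml (p : P0 k) : sg k ω * ml k p = ml k (s0 k ω p) * sg k ω := by
  apply LinearMap.ext
  intro f
  apply Polynomial.ext
  intro n
  rw [Module.End.mul_apply, Module.End.mul_apply, ml_apply, ml_apply, sg_coeff, coeff_C_mul,
    coeff_C_mul, sg_coeff, map_mul, mul_smul_comm]

/-- the operator `x` -/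
noncomputable def xE : Module.End k (MM k) := xo (dP k : P0 k →ₗ[k] P0 k)

theorem sg_xE (hω : ω ^ 2 + ω + 1 = 0) : sg k ω * xE k = ω ^ 2 • (xE k * sg k ω) := by
  have h3 := omega3 hω
  apply LinearMap.ext
  intro f
  apply Polynomial.ext
  intro n
  rw [Module.End.mul_apply, LinearMap.smul_apply, Module.End.mul_apply, sg_coeff, coeff_smul, xE]
  rcases n with _ | n
  · simp only [xo, LinearMap.sub_apply, coeff_sub, LinearMap.mulLeft_apply, cw_coeff, sg_coeff,
      mul_coeff_zero, coeff_X_zero, zero_mul, zero_sub, map_neg, pow_zero, one_smul, Derivation.coeFn_coe,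
      dP_s0, smul_neg, smul_smul]
    rw [show ω ^ 2 * ω = ω ^ 3 by ring, h3, one_smul]
  · rw [xo_coeff_succ, xo_coeff_succ, sg_coeff, sg_coeff, map_sub, smul_sub, smul_sub, smul_smul,
      ← pow_succ']
    congr 1
    simp only [Derivation.coeFn_coe, map_smul, dP_s0, smul_smul]
    congr 1
    calc (ω ^ 2) ^ (n + 1) = (ω ^ 2) ^ (n + 1) * ω ^ 3 := by rw [h3, mul_one]
      _ = _ := by ring

theorem sg_ne (hω : ω ^ 2 + ω + 1 = 0) (f : MM k) (hf : f ≠ 0) : sg k ω f ≠ 0 := by
  have h0 := omega_ne hω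
  intro h
  apply hf
  apply Polynomial.ext
  intro n
  have h1 := congrArg (fun g : MM k => g.coeff n) h
  simp only [sg_coeff, coeff_zero] at h1
  rw [smul_eq_zero_iff_right (pow_ne_zero _ (pow_ne_zero _ h0))] at h1
  rw [coeff_zero]
  apply PowerSeries.rescale_injective h0
  rw [map_zero]; exact h1

/-- `y - 1` -/
noncomputable def y1P : P0 k := PowerSeries.X - 1
/-- `y - ω²` -/
noncomputable def ywP : P0 k := PowerSeries.X - algebraMap k (P0 k) (ω ^ 2)

theorem y1P_inv : y1P k * (y1P k)⁻¹ = 1 := by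
  apply PowerSeries.mul_inv_cancel
  simp [y1P]

theorem ywP_inv (hω : ω ^ 2 + ω + 1 = 0) : ywP k ω * (ywP k ω)⁻¹ = 1 := by
  have h0 := omega_ne hω
  apply PowerSeries.mul_inv_cancel
  have : PowerSeries.constantCoeff (algebraMap k (P0 k) (ω ^ 2)) = ω ^ 2 := by
    rw [PowerSeries.algebraMap_apply]; simp
  rw [ywP, map_sub, this]
  simp [h0]

/-- the operator `y` -/
noncomputable def yE : Module.End k (MM k) := ml k PowerSeries.X

/-- the operator `z` -/
noncomputable def zE : Module.End k (MM k) := ml k (ywP k ω)⁻¹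

/-- the coefficient of `v` -/
noncomputable def vE : Module.End k (MM k) := ml k (y1P k)⁻¹ * sg k ω

theorem xE_ml (p : P0 k) : xE k * ml k p = ml k p * xE k - ml k (dP k p) := by
  have := xo_ml (dP k) p
  rw [map_neg] at this
  rw [xE]
  rw [sub_eq_iff_eq_add] at this
  rw [this]; abel

theorem ml_xE (p : P0 k) : ml k p * xE k = xE k * ml k p + ml k (dP k p) := by
  rw [xE_ml]; abel

theorem dP_X : dP k PowerSeries.X = 1 := PowerSeries.derivative_X

theorem s0_X : s0 k ω PowerSeries.X = ω • PowerSeries.X := by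
  rw [s0, PowerSeries.rescale_X, PowerSeries.smul_eq_C_mul]

theorem relE (hω : ω ^ 2 + ω + 1 = 0) :
    Rel ω (monomial 0 (xE k) : (Module.End k (MM k))[X]) (monomial 0 (yE k))
      (monomial 0 (zE k ω)) (monomial 1 (vE k ω)) := by
  have hone : (1 : (Module.End k (MM k))[X]) = monomial 0 1 := rfl
  have halg : ∀ c : k, algebraMap k (Module.End k (MM k))[X] c
      = monomial 0 (ml k (algebraMap k (P0 k) c)) := by
    intro c
    rw [Algebra.algebraMap_eq_smul_one, hone, smul_monomial, AlgHom.commutes,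
      Algebra.algebraMap_eq_smul_one]
  have hv : (monomial 0 (yE k) - 1) * (monomial 1 (vE k ω) : (Module.End k (MM k))[X])
      = monomial 1 (sg k ω) := by
    have : ((yE k) - 1) * vE k ω = sg k ω := by
      have h1 : (yE k) - 1 = ml k (y1P k) := by rw [yE, y1P, map_sub, map_one]
      rw [h1, vE, ← mul_assoc, ← map_mul, y1P_inv, map_one, one_mul]
    rw [hone, ← map_sub, monomial_mul_monomial, this]
  refine ⟨hω, ?_, ?_, ?_, ?_, ?_⟩
  · rw [monomial_mul_monomial, monomial_mul_monomial, hone, ← map_add]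
    congr 1
    rw [yE, ml_xE, dP_X, map_one]
  · rw [monomial_mul_monomial, monomial_mul_monomial, smul_monomial, add_zero, zero_add]
    congr 1
    rw [vE, yE, mul_assoc, sg_ml, s0_X, map_smul, smul_mul_assoc, mul_smul_comm, ← mul_assoc,
      ← map_mul, mul_comm, map_mul, mul_assoc]
  · rw [hv, monomial_mul_monomial, monomial_mul_monomial, smul_monomial, sg_xE k ω hω, smul_smul,
      show ω * ω ^ 2 = ω ^ 3 by ring, omega3 hω, one_smul, zero_add, add_zero]
  · rw [halg, ← map_sub, monomial_mul_monomial, hone]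
    congr 1
    rw [zE, yE, ← map_sub, ← map_mul, mul_comm, ← ywP, ywP_inv k ω hω, map_one]
  · rw [halg, ← map_sub, monomial_mul_monomial, hone]
    congr 1
    rw [zE, yE, ← map_sub, ← map_mul, ← ywP, ywP_inv k ω hω, map_one]

/-- derivatives of `(y-1)⁻¹` -/
noncomputable def aj (j : ℕ) : P0 k := (((-1) ^ j * (j.factorial : k)) : k) • (y1P k)⁻¹ ^ (j + 1)

theorem dP_aj (j : ℕ) : dP k (aj k j) = aj k (j + 1) := by
  have h1 : dP k (y1P k)⁻¹ = -(y1P k)⁻¹ ^ 2 := by
    rw [dP, PowerSeries.derivative_inv', y1P]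
    simp
  rw [aj, Derivation.map_smul, Derivation.leibniz_pow, h1, aj, Nat.add_sub_cancel, smul_neg,
    smul_eq_mul, ← pow_add]
  rw [Nat.factorial_succ, Nat.cast_mul, pow_succ, smul_neg, smul_neg, ← Nat.cast_smul_eq_nsmul k,
    smul_smul, ← neg_smul]
  congr 1
  ring

theorem aj_ne (j : ℕ) (hj : ((j.factorial : ℕ) : k) ≠ 0) : aj k j ≠ 0 := by
  rw [aj]
  apply smul_ne_zero
  · exact mul_ne_zero (pow_ne_zero _ (neg_ne_zero.mpr one_ne_zero)) hj
  · apply pow_ne_zero
    intro h
    have := y1P_inv k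
    rw [h, mul_zero] at this
    exact zero_ne_one this

end rep

section main
variable {k : Type} [Field k] {ω : k} {R : Type} [Ring R] [Algebra k R] {x y z v : R}

/-- `h` with `ρ(GG n e c) = ml h * sg^c * X^c` -/
noncomputable def hh (k : Type) [Field k] (ω : k) (n e : ℕ) : ℕ → P0 k
  | 0 => (ywP k ω)⁻¹ ^ n
  | 1 => (ywP k ω)⁻¹ ^ n * (aj k e * s0 k ω ((ywP k ω)⁻¹ ^ n))
  | _ + 2 => (ywP k ω)⁻¹ ^ n * (s0 k ω ((ywP k ω)⁻¹ ^ n) * s0 k ω (s0 k ω ((ywP k ω)⁻¹ ^ n)))

theorem hh_ne (hω : ω ^ 2 + ω + 1 = 0) (n e : ℕ) (he : ((e.factorial : ℕ) : k) ≠ 0) (c : ℕ) :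
    hh k ω n e c ≠ 0 := by
  have h1 : (ywP k ω)⁻¹ ^ n ≠ 0 := by
    apply pow_ne_zero
    intro h
    have := ywP_inv k ω hω
    rw [h, mul_zero] at this
    exact zero_ne_one this
  have hinj : Function.Injective (s0 k ω) := PowerSeries.rescale_injective (omega_ne hω)
  have h2 : s0 k ω ((ywP k ω)⁻¹ ^ n) ≠ 0 := (map_ne_zero_iff _ hinj).mpr h1
  have h3 : s0 k ω (s0 k ω ((ywP k ω)⁻¹ ^ n)) ≠ 0 := (map_ne_zero_iff _ hinj).mpr h2
  match c with
  | 0 => exact h1
  | 1 => exact mul_ne_zero h1 (mul_ne_zero (aj_ne k e he) h2)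
  | c + 2 => exact mul_ne_zero h1 (mul_ne_zero h2 h3)

variable (ρ : R →ₐ[k] (Module.End k (MM k))[X]) (hx : ρ x = monomial 0 (xE k))
  (hy : ρ y = monomial 0 (yE k)) (hz : ρ z = monomial 0 (zE k ω)) (hv : ρ v = monomial 1 (vE k ω))
  (hω : ω ^ 2 + ω + 1 = 0)
include hx hy hz hv hω

theorem rho_u : ρ (uu y v) = monomial 1 (sg k ω) := by
  have h1 : (yE k) - 1 = ml k (y1P k) := by rw [yE, y1P, map_sub, map_one]
  have hone : (1 : (Module.End k (MM k))[X]) = monomial 0 1 := rfl
  rw [uu, map_mul, map_sub, map_one, hy, hv, hone, ← map_sub, monomial_mul_monomial, h1, vE,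
    ← mul_assoc, ← map_mul, y1P_inv, map_one, one_mul]

theorem rho_vj (j : ℕ) : ρ (vj ω x v j) = monomial 1 (ml k (aj k j) * sg k ω) := by
  induction j with
  | zero => rw [vj, hv, vE, aj]; simp
  | succ j ih =>
    rw [vj, map_sub, map_smul, map_mul, map_mul, ih, hx, monomial_mul_monomial,
      monomial_mul_monomial, smul_monomial, mul_assoc, sg_xE k ω hω, mul_smul_comm, smul_smul,
      show ω * ω ^ 2 = ω ^ 3 by ring, omega3 hω, one_smul, ← mul_assoc, ml_xE, add_zero, zero_add,
      ← map_sub, add_mul, dP_aj, mul_assoc]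
    congr 1
    abel

theorem rho_GG (n e c : ℕ) : ρ (GG ω x y z v n e c) = monomial c (ml k (hh k ω n e c) * sg k ω ^ c) := by
  have hu := rho_u ρ hx hy hz hv hω
  have hzn : ρ (z ^ n) = monomial 0 (ml k ((ywP k ω)⁻¹ ^ n)) := by
    rw [map_pow, hz, monomial_pow, zE, ← map_pow, zero_mul]
  match c with
  | 0 => simp only [GG, hh]; rw [hzn, pow_zero, mul_one]
  | 1 =>
    simp only [GG, hh]
    rw [map_mul, map_mul, hzn, rho_vj ρ hx hy hz hv hω, monomial_mul_monomial,
      monomial_mul_monomial, mul_assoc, sg_ml, pow_one, map_mul (ml k), map_mul (ml k)]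
    simp only [mul_assoc, add_zero, zero_add]
  | c + 2 =>
    have e1 : ∀ (p : P0 k) (A : Module.End k (MM k)), sg k ω * (ml k p * A)
        = ml k (s0 k ω p) * (sg k ω * A) := by
      intro p A
      rw [← mul_assoc, sg_ml, mul_assoc]
    simp only [GG, hh]
    rw [map_mul, map_mul, map_mul, map_mul, map_mul, map_pow ρ (uu y v), hzn, hu, monomial_pow]
    simp only [monomial_mul_monomial]
    have e2 : ∀ (p : P0 k), sg k ω * ml k p = ml k (s0 k ω p) * sg k ω := sg_ml k ω
    simp only [e1, e2, map_mul (ml k), mul_assoc, one_mul, zero_add, ← pow_succ']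
    have hc : 1 + (1 + c) = c + 2 := by ring
    rw [hc]

/-- the symbol -/
noncomputable def QQ (k : Type) [Field k] (ω : k) (n e : ℕ) (φ : ℕ × ℕ × ℕ →₀ k) (c : ℕ) : MM k :=
  ∑ i ∈ φ.support, if i.2.2 = c then φ i • monomial i.1 (PowerSeries.X ^ i.2.1 * hh k ω n e c)
    else 0

theorem rho_gen (n e : ℕ) (i b c : ℕ) : ρ (x ^ i * (y ^ b * GG ω x y z v n e c))
    = monomial c (NN (dP k : P0 k →ₗ[k] P0 k) (monomial i (PowerSeries.X ^ b * hh k ω n e c))
      * sg k ω ^ c) := by
  rw [map_mul, map_mul, map_pow, map_pow, hx, hy, monomial_pow, monomial_pow,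
    rho_GG ρ hx hy hz hv hω, monomial_mul_monomial, monomial_mul_monomial, NN_monomial,
    map_mul (ml k), map_pow (ml k), xE, yE]
  simp only [mul_assoc, zero_mul, zero_add]

theorem rho_lin (n e : ℕ) (φ : ℕ × ℕ × ℕ →₀ k) (c : ℕ) :
    (ρ (Finsupp.linearCombination k
      (fun i : ℕ × ℕ × ℕ => x ^ i.1 * (y ^ i.2.1 * GG ω x y z v n e i.2.2)) φ)).coeff c
    = NN (dP k : P0 k →ₗ[k] P0 k) (QQ k ω n e φ c) * sg k ω ^ c := by
  rw [Finsupp.linearCombination_apply, Finsupp.sum, map_sum, finsetSum_coeff, QQ, map_sum,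
    Finset.sum_mul]
  apply Finset.sum_congr rfl
  intro i _
  rw [map_smul, rho_gen ρ hx hy hz hv hω, coeff_smul, coeff_monomial]
  split_ifs with h
  · rw [map_smul, h, smul_mul_assoc]
  · rw [map_zero, zero_mul, smul_zero]

omit hx hy hz hv ρ in
theorem QQ_ne (n e : ℕ) (he : ((e.factorial : ℕ) : k) ≠ 0) (φ : ℕ × ℕ × ℕ →₀ k) (a b c : ℕ)
    (h0 : φ (a, b, c) ≠ 0) : QQ k ω n e φ c ≠ 0 := by
  intro h
  have h1 := congrArg (fun f : MM k => f.coeff a) h
  simp only [QQ, finsetSum_coeff, coeff_zero] at h1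
  have h2 : ∀ i : ℕ × ℕ × ℕ, (if i.2.2 = c then φ i • monomial i.1
      (PowerSeries.X ^ i.2.1 * hh k ω n e c) else (0 : MM k)).coeff a
      = (if i.2.2 = c ∧ i.1 = a then φ i • (PowerSeries.X ^ i.2.1 : P0 k) else 0)
        * hh k ω n e c := by
    intro i
    by_cases hc : i.2.2 = c
    · rw [if_pos hc, coeff_smul, coeff_monomial]
      by_cases ha : i.1 = a
      · rw [if_pos ha, if_pos ⟨hc, ha⟩, smul_mul_assoc]
      · rw [if_neg ha, if_neg (fun h => ha h.2), zero_mul, smul_zero]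
    · rw [if_neg hc, if_neg (fun h => hc h.1), zero_mul, coeff_zero]
  rw [Finset.sum_congr rfl (fun i _ => h2 i), ← Finset.sum_mul] at h1
  have h3 := (mul_eq_zero.mp h1).resolve_right (hh_ne hω n e he c)
  have h4 := congrArg (PowerSeries.coeff b) h3
  rw [map_sum, map_zero, Finset.sum_eq_single (a, b, c)] at h4
  · rw [if_pos ⟨rfl, rfl⟩] at h4
    simp at h4
    exact h0 h4
  · rintro ⟨a', b', c'⟩ _ hne
    split_ifs with h5
    · simp only at h5
      rw [map_smul, PowerSeries.coeff_X_pow]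
      rw [if_neg, smul_zero]
      rintro rfl
      exact hne (by rw [h5.1, h5.2])
    · simp
  · intro h5
    exact absurd (Finsupp.notMem_support_iff.mp h5) h0

omit hx hy hz hv ρ in
theorem sg_pow_ne (c : ℕ) (f : MM k) (hf : f ≠ 0) : (sg k ω ^ c) f ≠ 0 := by
  induction c with
  | zero => simpa using hf
  | succ c ih => rw [pow_succ', Module.End.mul_apply]; exact sg_ne k ω hω _ ih

/-- the leading coefficients of the images of nonzero elements of bounded filtration are
injective -/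
theorem low_inj (n e : ℕ) (he : ((e.factorial : ℕ) : k) ≠ 0) (r : R) (hr : r ∈ Sp ω x y z v n e)
    (hr0 : r ≠ 0) (f : MM k) (hf : f ≠ 0) : (ρ r).leadingCoeff f ≠ 0 := by
  rw [Sp, Finsupp.mem_span_range_iff_exists_finsupp] at hr
  obtain ⟨φ, hφ⟩ := hr
  have hne : φ.support.Nonempty := by
    rw [Finset.nonempty_iff_ne_empty]
    intro h
    rw [Finsupp.support_eq_empty] at h
    apply hr0
    rw [← hφ, h, Finsupp.sum_zero_index]
  obtain ⟨⟨a, b, c⟩, hi, hmax⟩ := Finset.exists_max_image φ.support (fun i => i.2.2) hne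
  have hl : ∀ c', (ρ r).coeff c' = NN (dP k : P0 k →ₗ[k] P0 k) (QQ k ω n e φ c') * sg k ω ^ c' := by
    intro c'
    rw [← rho_lin ρ hx hy hz hv hω, ← hφ]
    rfl
  have hc : (ρ r).coeff c f ≠ 0 := by
    rw [hl, Module.End.mul_apply]
    apply NN_ne
    · exact QQ_ne hω n e he φ a b c (Finsupp.mem_support_iff.mp hi)
    · exact sg_pow_ne hω c f hf
  have hdeg : (ρ r).natDegree = c := by
    apply natDegree_eq_of_le_of_coeff_ne_zero
    · rw [natDegree_le_iff_coeff_eq_zero]
      intro c' hc'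
      rw [hl, QQ, Finset.sum_eq_zero, map_zero, zero_mul]
      intro i hi'
      rw [if_neg]
      intro h
      have := hmax i hi'
      simp only at this
      omega
    · intro h
      rw [h, LinearMap.zero_apply] at hc
      exact hc rfl
  rw [leadingCoeff, hdeg]
  exact hc

end main

end Pool.Agent.H18R2.BZD.Q2
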