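import Mathlib

set_option autoImplicit false
set_option linter.unusedSectionVars false
open Polynomial

namespace Pool.Agent.H18R2.BZD.Q2

/-! ### The standard polynomial -/

section std

/-- the standard polynomial -/
noncomputable def sf {B : Type} [Ring B] (n : ℕ) (a : Fin n → B) : B :=
  ∑ σ : Equiv.Perm (Fin n), (Equiv.Perm.sign σ : ℤ) • (List.ofFn (fun i => a (σ i))).prod

variable {C : Type} [CommRing C] {B : Type} [Ring B] [Algebra C B]

/-- the standard polynomial as an alternating map -/
noncomputable def stdA (C : Type) [CommRing C] (B : Type) [Ring B] [Algebra C B] (n : ℕ) :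
    B [⋀^Fin n]→ₗ[C] B :=
  MultilinearMap.alternatization (MultilinearMap.mkPiAlgebraFin C n B)

theorem stdA_apply (n : ℕ) (a : Fin n → B) : stdA C B n a = sf n a := by
  rw [stdA, MultilinearMap.alternatization_apply, sf]
  apply Finset.sum_congr rfl
  intro σ _
  simp only [MultilinearMap.domDomCongr_apply, MultilinearMap.mkPiAlgebraFin_apply]
  rfl

theorem sf_zero_of_span {ι : Type} [Fintype ι] (b : ι → B) (N : ℕ) (hN : Fintype.card ι < N)
    (a : Fin N → B) (ha : ∀ i, a i ∈ Submodule.span C (Set.range b)) : sf N a = 0 := by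
  classical
  let L : (ι → C) →ₗ[C] B := Fintype.linearCombination C b
  have hL : ∀ i, ∃ c, L c = a i := by
    intro i
    have := ha i
    rw [← Fintype.range_linearCombination C] at this
    exact this
  choose c hc using hL
  have h0 : (stdA C B N).compLinearMap L = 0 := by
    apply Module.Basis.ext_alternating (Pi.basisFun C ι)
    intro v hv
    have := Fintype.card_le_of_injective v hv
    rw [Fintype.card_fin] at this
    omega
  have h1 := congrArg (fun f => f c) h0
  simp only [AlternatingMap.compLinearMap_apply, AlternatingMap.zero_apply] at h1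
  rw [stdA_apply] at h1
  rw [← h1]
  congr 1
  funext i
  exact (hc i).symm

theorem map_sf {A : Type} [Ring A] (φ : B →+* A) (n : ℕ) (a : Fin n → B) :
    φ (sf n a) = sf n (fun i => φ (a i)) := by
  rw [sf, sf, map_sum]
  apply Finset.sum_congr rfl
  intro σ _
  rw [map_zsmul, map_list_prod, List.map_ofFn]
  rfl

theorem prod_monomial (n : ℕ) (A : Fin n → B) (c : Fin n → ℕ) :
    (List.ofFn (fun i => (monomial (c i) (A i) : B[X]))).prod
      = monomial (∑ i, c i) (List.ofFn A).prod := by
  induction n with
  | zero => simp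
  | succ n ih =>
    rw [List.ofFn_succ, List.prod_cons, ih, monomial_mul_monomial, List.ofFn_succ, List.prod_cons,
      Fin.sum_univ_succ]

theorem sf_monomial (n : ℕ) (A : Fin n → B) (c : Fin n → ℕ) :
    sf n (fun i => (monomial (c i) (A i) : B[X])) = monomial (∑ i, c i) (sf n A) := by
  rw [sf, sf, map_sum]
  apply Finset.sum_congr rfl
  intro σ _
  rw [prod_monomial n (fun i => A (σ i)) (fun i => c (σ i)), Equiv.sum_comp σ c, map_zsmul]

theorem sf_free_ne (k : Type) [Field k] (n : ℕ) :
    sf n (fun i => FreeAlgebra.ι k i) ≠ (0 : FreeAlgebra k (Fin n)) := by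
  intro h
  let φ : FreeAlgebra k (Fin n) →ₐ[k] MonoidAlgebra k (FreeMonoid (Fin n)) :=
    FreeAlgebra.lift k (fun i => MonoidAlgebra.of k _ (FreeMonoid.of i))
  have h1 := congrArg φ h
  have h2 : φ (sf n (fun i => FreeAlgebra.ι k i))
      = sf n (fun i => MonoidAlgebra.of k _ (FreeMonoid.of i)) := by
    have := map_sf φ.toRingHom n (fun i => FreeAlgebra.ι k i)
    refine this.trans ?_
    congr 1
    funext i
    simp [φ]
  rw [h2, map_zero, sf] at h1
  have h3 : ∀ σ : Equiv.Perm (Fin n),
      (List.ofFn (fun i => MonoidAlgebra.of k (FreeMonoid (Fin n)) (FreeMonoid.of (σ i)))).prod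
      = MonoidAlgebra.single (FreeMonoid.ofList (List.ofFn σ)) 1 := by
    intro σ
    have : (List.ofFn (fun i => MonoidAlgebra.of k (FreeMonoid (Fin n)) (FreeMonoid.of (σ i))))
        = (List.ofFn (fun i => FreeMonoid.of (σ i))).map (MonoidAlgebra.of k _) := by
      rw [List.map_ofFn]; rfl
    rw [this, ← map_list_prod, MonoidAlgebra.of_apply]
    congr 1
    have : (List.ofFn (fun i => FreeMonoid.of (σ i))) = (List.ofFn σ).map FreeMonoid.of := by
      rw [List.map_ofFn]; rfl
    rw [this]
    induction (List.ofFn σ) with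
    | nil => rfl
    | cons a l ih => rw [List.map_cons, List.prod_cons, ih]; rfl
  simp only [h3] at h1
  have h4 := congrArg (fun f : MonoidAlgebra k (FreeMonoid (Fin n)) =>
    f.coeff (FreeMonoid.ofList (List.ofFn (1 : Equiv.Perm (Fin n))))) h1
  simp only [MonoidAlgebra.coeff_sum, Finset.sum_apply'] at h4
  rw [Finset.sum_eq_single (1 : Equiv.Perm (Fin n))] at h4
  · simp at h4
  · intro σ _ hσ
    have : FreeMonoid.ofList (List.ofFn σ) ≠ FreeMonoid.ofList (List.ofFn (1 : Equiv.Perm (Fin n))) := by
      intro he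
      apply hσ
      have h5 : (List.ofFn σ) = (List.ofFn (1 : Equiv.Perm (Fin n))) := FreeMonoid.ofList.injective he
      have h6 := List.ofFn_injective h5
      exact DFunLike.coe_injective h6
    have h5 : ∀ m : ℤ, (m • (MonoidAlgebra.single (FreeMonoid.ofList (List.ofFn σ)) (1 : k))).coeff
        (FreeMonoid.ofList (List.ofFn (1 : Equiv.Perm (Fin n)))) = 0 := by
      intro m
      have h6 : ((MonoidAlgebra.single (FreeMonoid.ofList (List.ofFn σ)) (1 : k))).coeff
        (FreeMonoid.ofList (List.ofFn (1 : Equiv.Perm (Fin n)))) = 0 := by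
        rw [MonoidAlgebra.coeff_single, Finsupp.single_eq_of_ne this.symm]
      rw [MonoidAlgebra.coeff_smul, Finsupp.smul_apply, h6, smul_zero]
    exact h5 _
  · intro h5
    exact absurd (Finset.mem_univ _) h5

end std

end Pool.Agent.H18R2.BZD.Q2
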