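import Mathlib

set_option autoImplicit false

namespace Pool.Agent.H18R2.BZD

/-- The noncommutative polynomials over `k` in `d` variables of total degree less than `n`: the
linear span of the words of length less than `n`. -/
def degLT (k : Type) [Field k] (d n : ℕ) : Submodule k (FreeAlgebra k (Fin d)) :=
  Submodule.span k
    {w | ∃ l : List (Fin d), l.length < n ∧ w = (l.map (FreeAlgebra.ι k)).prod}

/-- The algebra `k⟨x₁,…,x_d⟩/(r₁,…,r_s)`: the free algebra modulo the two-sided ideal generated by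
the `r i`. -/
abbrev Quo {k : Type} [Field k] {d s : ℕ} (r : Fin s → FreeAlgebra k (Fin d)) : Type :=
  RingQuot (fun a b : FreeAlgebra k (Fin d) => ∃ i, a = r i ∧ b = 0)

/-- The quotient map `k⟨x₁,…,x_d⟩ → k⟨x₁,…,x_d⟩/(r₁,…,r_s)`. -/
noncomputable def proj {k : Type} [Field k] {d s : ℕ} (r : Fin s → FreeAlgebra k (Fin d)) :
    FreeAlgebra k (Fin d) →ₐ[k] Quo r :=
  RingQuot.mkAlgHom k (fun a b : FreeAlgebra k (Fin d) => ∃ i, a = r i ∧ b = 0)

/-- `a ∈ k⟨x₁,…,x_d⟩/(r₁,…,r_s)` has degree less than `N`: some preimage of `a` has total degree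
less than `N`. -/
def HasDegLT {k : Type} [Field k] {d s : ℕ} (r : Fin s → FreeAlgebra k (Fin d)) (N : ℕ)
    (a : Quo r) : Prop :=
  ∃ f ∈ degLT k d N, proj r f = a

end Pool.Agent.H18R2.BZD
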