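import Mathlib
import Pool.Agent.H18R2.BZD.D
import Pool.Agent.H18R2.BZD.A

set_option autoImplicit false
set_option linter.unusedSectionVars false
open Polynomial

namespace Pool.Agent.H18R2.BZD.Q2

/-! ### An algebra that is finite over its centre -/

/-- the relations of the operator algebra -/
structure Op {k : Type} [Field k] {B : Type} [Ring B] [Algebra k B] (p : ℕ) (ω : k)
    (x y s w : B) : Prop where
  hp : (p : k) = 0
  hp0 : 0 < p
  hω : ω ^ 2 + ω + 1 = 0
  h1 : y * x = x * y + 1
  sx : s * x = ω ^ 2 • (x * s)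
  sy : s * y = ω • (y * s)
  s3 : s ^ 3 = 1
  w1 : w * (y ^ (3 * p) - 1) = 1
  w2 : (y ^ (3 * p) - 1) * w = 1
  gen : Algebra.adjoin k {x, y, s, w} = ⊤

section ctr
variable {k : Type} [Field k] {B : Type} [Ring B] [Algebra k B] {p : ℕ} {ω : k} {x y s w : B}

theorem inv_comm {a b w : B} (h1 : w * a = 1) (h2 : a * w = 1) (h : b * a = a * b) :
    b * w = w * b := by
  calc b * w = w * a * b * w := by rw [h1, one_mul]
    _ = w * (b * a) * w := by rw [h]; simp only [mul_assoc]
    _ = w * b * (a * w) := by simp only [mul_assoc]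
    _ = w * b := by rw [h2, mul_one]

variable (h : Op p ω x y s w)
include h

theorem mem_center' {c : B} (cx : c * x = x * c) (cy : c * y = y * c) (cs : c * s = s * c)
    (cw : c * w = w * c) : c ∈ Subring.center B := by
  rw [Subring.mem_center_iff]
  intro g
  have h1 : Algebra.adjoin k {x, y, s, w} ≤ Subalgebra.centralizer k {c} := by
    apply Algebra.adjoin_le
    intro a ha
    simp only [Set.mem_insert_iff, Set.mem_singleton_iff] at ha
    rw [SetLike.mem_coe, Subalgebra.mem_centralizer_iff]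
    intro b hb
    rw [Set.mem_singleton_iff] at hb
    subst hb
    rcases ha with rfl | rfl | rfl | rfl
    · exact cx
    · exact cy
    · exact cs
    · exact cw
  rw [h.gen] at h1
  have h2 := h1 (show g ∈ (⊤ : Subalgebra k B) from Algebra.mem_top)
  rw [Subalgebra.mem_centralizer_iff] at h2
  exact (h2 c (Set.mem_singleton c)).symm

theorem Op_y_xpow (n : ℕ) : y * x ^ (n + 1) = x ^ (n + 1) * y + ((n + 1 : ℕ) : k) • x ^ n := by
  induction n with
  | zero => simp [h.h1]
  | succ a ih =>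
    rw [pow_succ x (a + 1), ← mul_assoc, ih, add_mul, mul_assoc, h.h1, mul_add, ← mul_assoc, mul_one,
      smul_mul_assoc, ← pow_succ, ← pow_succ, add_assoc]
    congr 1
    rw [show (((a + 1 + 1 : ℕ)) : k) = 1 + ((a + 1 : ℕ) : k) by push_cast; ring, add_smul, one_smul]

theorem Op_ypow_x (n : ℕ) : y ^ (n + 1) * x = x * y ^ (n + 1) + ((n + 1 : ℕ) : k) • y ^ n := by
  induction n with
  | zero => simp [h.h1]
  | succ n ih =>
    rw [pow_succ' y (n + 1), mul_assoc, ih, mul_add, ← mul_assoc, h.h1, mul_smul_comm, ← pow_succ',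
      add_mul, one_mul, mul_assoc, ← pow_succ', add_assoc]
    congr 1
    rw [show (((n + 1 + 1 : ℕ)) : k) = 1 + ((n + 1 : ℕ) : k) by push_cast; ring, add_smul, one_smul]

theorem Op_s_xpow (i : ℕ) : s * x ^ i = (ω ^ 2) ^ i • (x ^ i * s) := by
  induction i with
  | zero => simp
  | succ i ih =>
    rw [pow_succ, ← mul_assoc, ih, smul_mul_assoc, mul_assoc, h.sx, mul_smul_comm, smul_smul,
      ← pow_succ, ← mul_assoc]

theorem Op_s_ypow (i : ℕ) : s * y ^ i = ω ^ i • (y ^ i * s) := by
  induction i with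
  | zero => simp
  | succ i ih =>
    rw [pow_succ, ← mul_assoc, ih, smul_mul_assoc, mul_assoc, h.sy, mul_smul_comm, smul_smul,
      ← pow_succ, ← mul_assoc]

theorem cast_3p : ((3 * p : ℕ) : k) = 0 := by rw [Nat.cast_mul, h.hp, mul_zero]

theorem x3p_y : y * x ^ (3 * p) = x ^ (3 * p) * y := by
  obtain ⟨n, hn⟩ : ∃ n, 3 * p = n + 1 := ⟨3 * p - 1, by have := h.hp0; omega⟩
  have := Op_y_xpow h n
  rw [← hn, cast_3p h, zero_smul, add_zero] at this
  exact this

theorem y3p_x : y ^ (3 * p) * x = x * y ^ (3 * p) := by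
  obtain ⟨n, hn⟩ : ∃ n, 3 * p = n + 1 := ⟨3 * p - 1, by have := h.hp0; omega⟩
  have := Op_ypow_x h n
  rw [← hn, cast_3p h, zero_smul, add_zero] at this
  exact this

theorem y3p_s : y ^ (3 * p) * s = s * y ^ (3 * p) := by
  rw [Op_s_ypow h, pow_mul ω, omega3 h.hω, one_pow, one_smul]

theorem x3p_s : x ^ (3 * p) * s = s * x ^ (3 * p) := by
  rw [Op_s_xpow h, ← pow_mul, show 2 * (3 * p) = 3 * (2 * p) by ring, pow_mul ω, omega3 h.hω,
    one_pow, one_smul]

theorem w_x : x * w = w * x := by
  apply inv_comm h.w1 h.w2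
  rw [mul_sub, sub_mul, y3p_x h]; simp

theorem w_y : y * w = w * y := by
  apply inv_comm h.w1 h.w2
  rw [mul_sub, sub_mul, ← pow_succ, ← pow_succ']; simp

theorem w_s : s * w = w * s := by
  apply inv_comm h.w1 h.w2
  rw [mul_sub, sub_mul, y3p_s h]; simp

theorem w_center : w ∈ Subring.center B :=
  mem_center' h (w_x h).symm (w_y h).symm (w_s h).symm rfl

theorem y3p_center : y ^ (3 * p) ∈ Subring.center B :=
  mem_center' h (y3p_x h) ((Commute.refl y).pow_left _) (y3p_s h)
    (Commute.pow_left (w_y h) _)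

theorem x3p_center : x ^ (3 * p) ∈ Subring.center B :=
  mem_center' h ((Commute.refl x).pow_left _) (x3p_y h).symm (x3p_s h)
    (Commute.pow_left (w_x h) _)

omit h in
theorem alg_center (c : k) : algebraMap k B c ∈ Subring.center B := by
  rw [Subring.mem_center_iff]
  intro g
  exact (Algebra.commutes c g).symm

/-- the span over the centre of finitely many monomials -/
def SC (p : ℕ) (x y s : B) : Submodule (Subring.center B) B :=
  Submodule.span (Subring.center B)
    (Set.range fun i : Fin (3 * p) × Fin (3 * p) × Fin 3 =>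
      x ^ (i.1 : ℕ) * (y ^ (i.2.1 : ℕ) * s ^ (i.2.2 : ℕ)))

omit h in
theorem SC_central {c : B} (hc : c ∈ Subring.center B) {r : B} (hr : r ∈ SC p x y s) :
    c * r ∈ SC p x y s :=
  (SC p x y s).smul_mem ⟨c, hc⟩ hr

omit h in
theorem SC_smul (c : k) {r : B} (hr : r ∈ SC p x y s) : c • r ∈ SC p x y s := by
  rw [Algebra.smul_def]
  exact SC_central (alg_center c) hr

theorem mon_SC (i j l : ℕ) : x ^ i * (y ^ j * s ^ l) ∈ SC p x y s := by
  have h3p : 0 < 3 * p := by have := h.hp0; omega
  have e1 : x ^ i = (x ^ (3 * p)) ^ (i / (3 * p)) * x ^ (i % (3 * p)) := by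
    rw [← pow_mul, ← pow_add, Nat.div_add_mod]
  have e2 : y ^ j = (y ^ (3 * p)) ^ (j / (3 * p)) * y ^ (j % (3 * p)) := by
    rw [← pow_mul, ← pow_add, Nat.div_add_mod]
  have e3 : s ^ l = s ^ (l % 3) := by
    conv_lhs => rw [← Nat.div_add_mod l 3, pow_add, pow_mul, h.s3, one_pow, one_mul]
  have c1 : (x ^ (3 * p)) ^ (i / (3 * p)) ∈ Subring.center B := pow_mem (x3p_center h) _
  have c2 : (y ^ (3 * p)) ^ (j / (3 * p)) ∈ Subring.center B := pow_mem (y3p_center h) _
  rw [e1, e2, e3]
  have e4 : (x ^ (3 * p)) ^ (i / (3 * p)) * x ^ (i % (3 * p)) *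
      ((y ^ (3 * p)) ^ (j / (3 * p)) * y ^ (j % (3 * p)) * s ^ (l % 3))
      = (x ^ (3 * p)) ^ (i / (3 * p)) * ((y ^ (3 * p)) ^ (j / (3 * p)) *
        (x ^ (i % (3 * p)) * (y ^ (j % (3 * p)) * s ^ (l % 3)))) := by
    rw [Subring.mem_center_iff] at c2
    rw [mul_assoc, ← mul_assoc (x ^ (i % (3 * p))), ← mul_assoc (x ^ (i % (3 * p))), c2]
    simp only [mul_assoc]
  rw [e4]
  apply SC_central c1
  apply SC_central c2
  apply Submodule.subset_span
  exact ⟨(⟨i % (3 * p), Nat.mod_lt _ h3p⟩, ⟨j % (3 * p), Nat.mod_lt _ h3p⟩,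
    ⟨l % 3, Nat.mod_lt _ (by norm_num)⟩), rfl⟩

omit h in
theorem SC_left_of {a : B} (ha : ∀ i j l, a * (x ^ i * (y ^ j * s ^ l)) ∈ SC p x y s) :
    ∀ r ∈ SC p x y s, a * r ∈ SC p x y s := by
  intro r hr
  induction hr using Submodule.span_induction with
  | mem w hw => obtain ⟨i, rfl⟩ := hw; exact ha _ _ _
  | zero => simp
  | add a b _ _ ha hb => rw [mul_add]; exact add_mem ha hb
  | smul c a' _ ha' =>
    have e : a * (c • a') = c • (a * a') := by
      rw [mul_smul_comm]
    rw [e]
    exact Submodule.smul_mem _ _ ha'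

theorem SC_top (r : B) : r ∈ SC p x y s := by
  have key : ∀ a ∈ Algebra.adjoin k {x, y, s, w}, ∀ r ∈ SC p x y s, a * r ∈ SC p x y s := by
    intro a ha
    induction ha using Algebra.adjoin_induction with
    | mem a ha =>
      simp only [Set.mem_insert_iff, Set.mem_singleton_iff] at ha
      rcases ha with rfl | rfl | rfl | rfl
      · apply SC_left_of
        intro i j l
        rw [← mul_assoc, ← pow_succ']
        exact mon_SC h _ _ _
      · apply SC_left_of
        intro i j l
        rcases i with _ | i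
        · rw [pow_zero, one_mul, ← mul_assoc, ← pow_succ']
          simpa using mon_SC h 0 (j + 1) l
        · rw [← mul_assoc, Op_y_xpow h, add_mul, smul_mul_assoc, mul_assoc, ← mul_assoc a,
            ← pow_succ']
          exact add_mem (mon_SC h _ _ _) (SC_smul _ (mon_SC h _ _ _))
      · apply SC_left_of
        intro i j l
        rw [← mul_assoc, Op_s_xpow h, smul_mul_assoc, mul_assoc, ← mul_assoc a, Op_s_ypow h,
          smul_mul_assoc, mul_smul_comm, mul_assoc, ← pow_succ']
        exact SC_smul _ (SC_smul _ (mon_SC h _ _ _))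
      · intro r hr
        exact SC_central (w_center h) hr
    | algebraMap c => intro r hr; exact SC_central (alg_center c) hr
    | add a b _ _ ha hb => intro r hr; rw [add_mul]; exact add_mem (ha r hr) (hb r hr)
    | mul a b _ _ ha hb => intro r hr; rw [mul_assoc]; exact ha _ (hb r hr)
  have h1 : (1 : B) ∈ SC p x y s := by simpa using mon_SC h 0 0 0
  have := key r (by rw [h.gen]; exact Algebra.mem_top) 1 h1
  rwa [mul_one] at this

/-- the standard identity holds -/
theorem Op_sf (N : ℕ) (hN : 3 * p * (3 * p * 3) < N) (a : Fin N → B) : sf N a = 0 := by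
  apply sf_zero_of_span (C := Subring.center B)
    (fun i : Fin (3 * p) × Fin (3 * p) × Fin 3 =>
      x ^ (i.1 : ℕ) * (y ^ (i.2.1 : ℕ) * s ^ (i.2.2 : ℕ))) N
  · simpa using hN
  · intro i
    exact SC_top h (a i)

end ctr

end Pool.Agent.H18R2.BZD.Q2
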