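import Mathlib
import Pool.Agent.H18R2.BZD.C
import Pool.Agent.H18R2.BZD.E

set_option autoImplicit false
set_option linter.unusedSectionVars false
open Polynomial

namespace Pool.Agent.H18R2.BZD.Q2

section conc
variable (k : Type) [Field k] (p : ℕ) (ω : k)

/-- `(y^{3p} - 1)⁻¹` -/
noncomputable def wP : P0 k := (PowerSeries.X ^ (3 * p) - 1 : P0 k)⁻¹

theorem wP_inv (hp : 0 < p) : (PowerSeries.X ^ (3 * p) - 1 : P0 k) * wP k p = 1 := by
  apply PowerSeries.mul_inv_cancel
  simp [hp.ne']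

/-- the operator algebra -/
noncomputable def BB : Subalgebra k (Module.End k (MM k)) :=
  Algebra.adjoin k {xE k, yE k, sg k ω, ml k (wP k p)}

theorem xE_mem : xE k ∈ BB k p ω := Algebra.subset_adjoin (by simp)
theorem yE_mem : yE k ∈ BB k p ω := Algebra.subset_adjoin (by simp)
theorem sg_mem : sg k ω ∈ BB k p ω := Algebra.subset_adjoin (by simp)
theorem w_mem : ml k (wP k p) ∈ BB k p ω := Algebra.subset_adjoin (by simp)

theorem sg3 (hω : ω ^ 2 + ω + 1 = 0) : sg k ω ^ 3 = 1 := by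
  apply LinearMap.ext
  intro f
  apply Polynomial.ext
  intro n
  have e : (sg k ω ^ 3) f = sg k ω (sg k ω (sg k ω f)) := rfl
  rw [e, sg_coeff, sg_coeff, sg_coeff, s0_alg, s0_alg, s0_alg, smul_smul, smul_smul,
    Module.End.one_apply]
  have e2 : s0 k ω (s0 k ω (s0 k ω (f.coeff n))) = f.coeff n := by
    ext m
    simp only [s0, PowerSeries.coeff_rescale]
    rw [← mul_assoc, ← mul_assoc, ← mul_pow, ← mul_pow, show ω * ω * ω = ω ^ 3 by ring, omega3 hω,
      one_pow, one_mul]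
  rw [e2, ← mul_pow, ← mul_pow, show ω ^ 2 * ω ^ 2 * ω ^ 2 = (ω ^ 3) ^ 2 by ring, omega3 hω,
    one_pow, one_pow, one_smul]

theorem OpB (hp : (p : k) = 0) (hp0 : 0 < p) (hω : ω ^ 2 + ω + 1 = 0) :
    Op (B := BB k p ω) p ω ⟨xE k, xE_mem k p ω⟩ ⟨yE k, yE_mem k p ω⟩ ⟨sg k ω, sg_mem k p ω⟩
      ⟨ml k (wP k p), w_mem k p ω⟩ := by
  refine ⟨hp, hp0, hω, ?_, ?_, ?_, ?_, ?_, ?_, ?_⟩
  · apply Subtype.ext
    show yE k * xE k = xE k * yE k + 1
    rw [yE, ml_xE, dP_X, map_one]
  · apply Subtype.ext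
    show sg k ω * xE k = ω ^ 2 • (xE k * sg k ω)
    exact sg_xE k ω hω
  · apply Subtype.ext
    show sg k ω * yE k = ω • (yE k * sg k ω)
    rw [yE, sg_ml, s0_X, map_smul, smul_mul_assoc]
  · apply Subtype.ext
    exact sg3 k ω hω
  · apply Subtype.ext
    show ml k (wP k p) * (yE k ^ (3 * p) - 1) = 1
    rw [yE, ← map_pow, ← map_one (ml k), ← map_sub, ← map_mul, mul_comm, wP_inv k p hp0]
  · apply Subtype.ext
    show (yE k ^ (3 * p) - 1) * ml k (wP k p) = 1
    rw [yE, ← map_pow, ← map_one (ml k), ← map_sub, ← map_mul, wP_inv k p hp0]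
  · have h1 := Algebra.adjoin_adjoin_coe_preimage (R := k)
      (s := ({xE k, yE k, sg k ω, ml k (wP k p)} : Set (Module.End k (MM k))))
    refine Eq.trans ?_ h1
    have h2 : ({⟨xE k, xE_mem k p ω⟩, ⟨yE k, yE_mem k p ω⟩, ⟨sg k ω, sg_mem k p ω⟩,
        ⟨ml k (wP k p), w_mem k p ω⟩} : Set (BB k p ω))
        = (Subtype.val ⁻¹' ({xE k, yE k, sg k ω, ml k (wP k p)} : Set (Module.End k (MM k)))) := by
      ext ⟨a, ha⟩
      simp only [Set.mem_insert_iff, Set.mem_singleton_iff, Set.mem_preimage, Subtype.mk.injEq]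
    rw [h2]
    rfl

theorem inv_mem (hp0 : 0 < p) (a : k) (ha : a ^ (3 * p) = 1) (b : P0 k)
    (hb : (PowerSeries.X - algebraMap k (P0 k) a) * b = 1) : ml k b ∈ BB k p ω := by
  obtain ⟨g, hg⟩ : (X - C a : k[X]) ∣ X ^ (3 * p) - 1 := by
    rw [dvd_iff_isRoot]
    simp [ha]
  have h1 := congrArg (aeval (PowerSeries.X : P0 k)) hg
  simp only [map_sub, map_pow, map_mul, aeval_X, aeval_C, map_one] at h1
  have h2 : b = aeval (PowerSeries.X : P0 k) g * wP k p := by
    calc b = b * ((PowerSeries.X ^ (3 * p) - 1 : P0 k) * wP k p) := by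
          rw [wP_inv k p hp0, mul_one]
      _ = ((PowerSeries.X - algebraMap k (P0 k) a) * b) * (aeval (PowerSeries.X : P0 k) g * wP k p) := by
          rw [h1]; ring
      _ = _ := by rw [hb, one_mul]
  rw [h2, map_mul]
  apply mul_mem _ (w_mem k p ω)
  have h3 : ml k (aeval (PowerSeries.X : P0 k) g) = aeval (yE k) g := by
    rw [yE, ← aeval_algHom_apply]
  rw [h3]
  exact aeval_mem_adjoin_singleton' k p ω g
where
  aeval_mem_adjoin_singleton' (k : Type) [Field k] (p : ℕ) (ω : k) (g : k[X]) :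
      aeval (yE k) g ∈ BB k p ω := by
    induction g using Polynomial.induction_on' with
    | add p q hp hq => rw [map_add]; exact add_mem hp hq
    | monomial i a =>
      rw [aeval_monomial]
      exact mul_mem (Subalgebra.algebraMap_mem _ _) (pow_mem (yE_mem _ _ _) _)

theorem zE_mem (hp0 : 0 < p) (hω : ω ^ 2 + ω + 1 = 0) : zE k ω ∈ BB k p ω := by
  apply inv_mem k p ω hp0 (ω ^ 2) _ _ (ywP_inv k ω hω)
  rw [← pow_mul, show 2 * (3 * p) = 3 * (2 * p) by ring, pow_mul, omega3 hω, one_pow]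

theorem vE_mem (hp0 : 0 < p) : vE k ω ∈ BB k p ω := by
  apply mul_mem _ (sg_mem k p ω)
  apply inv_mem k p ω hp0 1 (one_pow _)
  rw [map_one]
  exact y1P_inv k

end conc

section words
variable {k : Type} [Field k] {ω : k} {R : Type} [Ring R] [Algebra k R] {x y z v : R}
variable (ρ : R →ₐ[k] (Module.End k (MM k))[X]) (hx : ρ x = monomial 0 (xE k))
  (hy : ρ y = monomial 0 (yE k)) (hz : ρ z = monomial 0 (zE k ω)) (hv : ρ v = monomial 1 (vE k ω))
  (hω : ω ^ 2 + ω + 1 = 0)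

include hx hy hz hv hω in
theorem rho_word (p : ℕ) (hp0 : 0 < p) (l : List (Fin 4)) : ∃ c, ∃ A ∈ BB k p ω,
    ρ ((l.map ![x, y, z, v]).prod) = monomial c A := by
  induction l with
  | nil => exact ⟨0, 1, one_mem _, by rw [List.map_nil, List.prod_nil, map_one]; rfl⟩
  | cons i l ih =>
    obtain ⟨c, A, hA, h⟩ := ih
    rw [List.map_cons, List.prod_cons, map_mul, h]
    fin_cases i
    · refine ⟨0 + c, xE k * A, mul_mem (xE_mem k p ω) hA, ?_⟩
      rw [← monomial_mul_monomial, ← hx]; rfl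
    · refine ⟨0 + c, yE k * A, mul_mem (yE_mem k p ω) hA, ?_⟩
      rw [← monomial_mul_monomial, ← hy]; rfl
    · refine ⟨0 + c, zE k ω * A, mul_mem (zE_mem k p ω hp0 hω) hA, ?_⟩
      rw [← monomial_mul_monomial, ← hz]; rfl
    · refine ⟨1 + c, vE k ω * A, mul_mem (vE_mem k p ω hp0) hA, ?_⟩
      rw [← monomial_mul_monomial, ← hv]; rfl

theorem sf_BB (p : ℕ) (hp : (p : k) = 0) (hp0 : 0 < p) (hω : ω ^ 2 + ω + 1 = 0) (N : ℕ)
    (hN : 3 * p * (3 * p * 3) < N) (A : Fin N → Module.End k (MM k)) (hA : ∀ i, A i ∈ BB k p ω) :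
    sf N A = 0 := by
  have h1 := Op_sf (OpB k p ω hp hp0 hω) N hN (fun i => ⟨A i, hA i⟩)
  have h2 := map_sf (BB k p ω).val.toRingHom N (fun i => (⟨A i, hA i⟩ : BB k p ω))
  rw [h1, map_zero] at h2
  exact h2.symm

/-- a multilinear map that vanishes on a spanning set is zero -/
theorem multilinear_zero {V W : Type} [AddCommGroup V] [Module k V] [AddCommGroup W] [Module k W]
    {N : ℕ} (m : MultilinearMap k (fun _ : Fin N => V) W) (S : Set V)
    (hS : Submodule.span k S = ⊤) (h : ∀ a : Fin N → V, (∀ i, a i ∈ S) → m a = 0)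
    (a : Fin N → V) : m a = 0 := by
  let b := Module.Basis.ofSpan (K := k) hS.ge
  have : m = 0 := by
    apply Module.Basis.ext_multilinear (fun _ => b)
    intro w
    rw [_root_.zero_apply]
    apply h
    intro i
    exact Module.Basis.ofSpan_subset hS.ge ⟨w i, rfl⟩
  rw [this, _root_.zero_apply]

include hx hy hz hv hω in
theorem rho_sf (p : ℕ) (hp : (p : k) = 0) (hp0 : 0 < p)
    (hspan : Submodule.span k {w : R | ∃ l : List (Fin 4), w = (l.map ![x, y, z, v]).prod} = ⊤)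
    (N : ℕ) (hN : 3 * p * (3 * p * 3) < N) (a : Fin N → R) : ρ (sf N a) = 0 := by
  let m : MultilinearMap k (fun _ : Fin N => R) (Module.End k (MM k))[X] :=
    (stdA k (Module.End k (MM k))[X] N).toMultilinearMap.compLinearMap
      (fun _ => ρ.toLinearMap)
  have hm : ∀ a, m a = sf N (fun i => ρ (a i)) := by
    intro a
    have := stdA_apply (C := k) N (fun i => ρ (a i))
    exact this
  have h1 : ρ (sf N a) = m a := by
    rw [hm]
    exact map_sf ρ.toRingHom N a
  rw [h1]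
  apply multilinear_zero m _ hspan
  intro a ha
  rw [hm]
  choose l hl using ha
  have h2 := fun i => rho_word ρ hx hy hz hv hω p hp0 (l i)
  choose c A hA hcA using h2
  have h3 : (fun i => ρ (a i)) = fun i => (monomial (c i) (A i) : (Module.End k (MM k))[X]) := by
    funext i
    rw [hl, hcA]
  rw [h3, sf_monomial, sf_BB p hp hp0 hω N hN A hA, map_zero]

/-! ### the kernel -/

include hx hy hz in
theorem T0_mono {a : R} (ha : a ∈ LS k x y z 1) : ∃ A, ρ a = monomial 0 A := by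
  induction ha using Submodule.span_induction with
  | mem w hw =>
    obtain ⟨i, b, n, rfl⟩ := hw
    refine ⟨xE k ^ i * (yE k ^ b * zE k ω ^ n), ?_⟩
    rw [mul_one, map_mul, map_mul, map_pow, map_pow, map_pow, hx, hy, hz, monomial_pow,
      monomial_pow, monomial_pow, monomial_mul_monomial, monomial_mul_monomial]
    simp
  | zero => exact ⟨0, by simp⟩
  | add a b _ _ ha hb =>
    obtain ⟨A, hA⟩ := ha
    obtain ⟨B, hB⟩ := hb
    exact ⟨A + B, by rw [map_add, hA, hB, map_add]⟩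
  | smul c a _ ha =>
    obtain ⟨A, hA⟩ := ha
    exact ⟨c • A, by rw [map_smul, hA, smul_monomial]⟩

include hx hy hz hv in
theorem T1_mono {a : R} (ha : a ∈ T1 k x y z v) : ∃ A, ρ a = monomial 1 A := by
  induction ha using Submodule.span_induction with
  | mem w hw =>
    obtain ⟨a, ha, b, hb, rfl⟩ := hw
    obtain ⟨A, hA⟩ := T0_mono ρ hx hy hz ha
    obtain ⟨B, hB⟩ := T0_mono ρ hx hy hz hb
    refine ⟨A * (vE k ω * B), ?_⟩
    rw [map_mul, map_mul, hA, hB, hv, monomial_mul_monomial, monomial_mul_monomial]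
  | zero => exact ⟨0, by simp⟩
  | add a b _ _ ha hb =>
    obtain ⟨A, hA⟩ := ha
    obtain ⟨B, hB⟩ := hb
    exact ⟨A + B, by rw [map_add, hA, hB, map_add]⟩
  | smul c a _ ha =>
    obtain ⟨A, hA⟩ := ha
    exact ⟨c • A, by rw [map_smul, hA, smul_monomial]⟩

include hx hy hz hv hω in
theorem NS_coeff {a : R} (ha : a ∈ NS k x y z v) : (ρ a).coeff 1 = 0 := by
  induction ha using Submodule.span_induction with
  | mem w hw =>
    obtain ⟨i, b, n0, n1, n2, c, rfl⟩ := hw
    have hu := rho_u ρ hx hy hz hv hω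
    simp only [EE, map_mul, map_pow, hx, hy, hz, hu, monomial_pow, monomial_mul_monomial]
    rw [coeff_monomial, if_neg (by omega)]
  | zero => simp
  | add a b _ _ ha hb => rw [map_add, coeff_add, ha, hb, add_zero]
  | smul c a _ ha => rw [map_smul, coeff_smul, ha, smul_zero]

variable (h : Rel ω x y z v)

include hx hy hz hv h in
theorem rho_inj (e : ℕ) (he : ((e.factorial : ℕ) : k) ≠ 0) {r : R}
    (hr : r ∈ ⨆ n, Sp ω x y z v n e) (h0 : ρ r = 0) : r = 0 := by
  obtain ⟨n, hn⟩ := Sp_sup h e hr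
  by_contra hne
  have := low_inj ρ hx hy hz hv h.hω n e he r hn hne 1 one_ne_zero
  rw [h0, leadingCoeff_zero, LinearMap.zero_apply] at this
  exact this rfl

include h in
theorem decomp
    (hspan : Submodule.span k {w : R | ∃ l : List (Fin 4), w = (l.map ![x, y, z, v]).prod} = ⊤)
    (r : R) : ∃ r0 ∈ LS k x y z 1, ∃ r1 ∈ T1 k x y z v, ∃ r2 ∈ NS k x y z v, r = r0 + r1 + r2 := by
  have hr : r ∈ Submodule.span k {w : R | ∃ l : List (Fin 4), w = (l.map ![x, y, z, v]).prod} := by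
    rw [hspan]; trivial
  induction hr using Submodule.span_induction with
  | mem w hw =>
    obtain ⟨l, rfl⟩ := hw
    rcases word_cases h l with h1 | h1 | h1
    · exact ⟨_, h1, 0, zero_mem _, 0, zero_mem _, by simp⟩
    · exact ⟨0, zero_mem _, _, h1, 0, zero_mem _, by simp⟩
    · exact ⟨0, zero_mem _, 0, zero_mem _, _, h1, by simp⟩
  | zero => exact ⟨0, zero_mem _, 0, zero_mem _, 0, zero_mem _, by simp⟩
  | add a b _ _ ha hb =>
    obtain ⟨a0, ha0, a1, ha1, a2, ha2, ha⟩ := ha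
    obtain ⟨b0, hb0, b1, hb1, b2, hb2, hb⟩ := hb
    exact ⟨a0 + b0, add_mem ha0 hb0, a1 + b1, add_mem ha1 hb1, a2 + b2, add_mem ha2 hb2, by
      rw [ha, hb]; abel⟩
  | smul c a _ ha =>
    obtain ⟨a0, ha0, a1, ha1, a2, ha2, ha⟩ := ha
    exact ⟨c • a0, Submodule.smul_mem _ _ ha0, c • a1, Submodule.smul_mem _ _ ha1, c • a2,
      Submodule.smul_mem _ _ ha2, by rw [ha, smul_add, smul_add]⟩

include hx hy hz hv h in
theorem ker_T1
    (hspan : Submodule.span k {w : R | ∃ l : List (Fin 4), w = (l.map ![x, y, z, v]).prod} = ⊤)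
    {r : R} (h0 : ρ r = 0) : r ∈ T1 k x y z v := by
  obtain ⟨r0, hr0, r1, hr1, r2, hr2, hr⟩ := decomp h hspan r
  have h1 : r0 + r2 = 0 := by
    apply rho_inj ρ hx hy hz hv h 0 (by simp)
    · exact add_mem (T0_le h 0 hr0) (NS_le h 0 hr2)
    · obtain ⟨A, hA⟩ := T0_mono ρ hx hy hz hr0
      obtain ⟨B, hB⟩ := T1_mono ρ hx hy hz hv hr1
      have h2 : ρ (r0 + r2) = - ρ r1 := by
        have : r0 + r2 = r - r1 := by rw [hr]; abel
        rw [this, map_sub, h0, zero_sub]
      apply Polynomial.ext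
      intro n
      by_cases hn : n = 1
      · subst hn
        rw [map_add, coeff_add, NS_coeff ρ hx hy hz hv h.hω hr2, hA, coeff_monomial]
        simp
      · rw [h2, coeff_neg, hB, coeff_monomial, if_neg (Ne.symm hn)]
        simp
  have h2 : r = r1 := by
    have : r = r1 + (r0 + r2) := by rw [hr]; abel
    rw [this, h1, add_zero]
  rw [h2]
  exact hr1

include hx hy hz hv h in
/-- the algebra is PI -/
theorem isPI (p : ℕ) (hp : (p : k) = 0) (hp0 : 0 < p)
    (hspan : Submodule.span k {w : R | ∃ l : List (Fin 4), w = (l.map ![x, y, z, v]).prod} = ⊤) :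
    ∃ m, ∃ f : FreeAlgebra k (Fin m), f ≠ 0 ∧ ∀ a : Fin m → R, FreeAlgebra.lift k a f = 0 := by
  set N := 3 * p * (3 * p * 3) + 1 with hN
  refine ⟨N, sf N (fun i => FreeAlgebra.ι k i) * sf N (fun i => FreeAlgebra.ι k i),
    mul_ne_zero (sf_free_ne k N) (sf_free_ne k N), ?_⟩
  intro a
  have h1 : FreeAlgebra.lift k a (sf N (fun i => FreeAlgebra.ι k i)) = sf N a := by
    have := map_sf (FreeAlgebra.lift k a).toRingHom N (fun i => FreeAlgebra.ι k i)
    refine this.trans ?_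
    congr 1
    funext i
    exact FreeAlgebra.lift_ι_apply a i
  rw [map_mul, h1]
  have h2 := rho_sf ρ hx hy hz hv h.hω p hp hp0 hspan N (by omega) a
  have h3 := ker_T1 ρ hx hy hz hv h hspan h2
  apply rho_inj ρ hx hy hz hv h 0 (by simp)
  · exact NS_le h 0 (T1_T1 h h3 h3)
  · rw [map_mul, h2, mul_zero]

include hx hy hz hv h in
/-- nonzero elements of low degree have nonzero product -/
theorem low_prod (e : ℕ) (he : ((e.factorial : ℕ) : k) ≠ 0) {r s : R}
    (hr : r ∈ ⨆ n, Sp ω x y z v n e) (hs : s ∈ ⨆ n, Sp ω x y z v n e) (hr0 : r ≠ 0) (hs0 : s ≠ 0) :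
    r * s ≠ 0 := by
  obtain ⟨n, hn⟩ := Sp_sup h e hr
  obtain ⟨n', hn'⟩ := Sp_sup h e hs
  intro h0
  have h1 := low_inj ρ hx hy hz hv h.hω n' e he s hn' hs0 1 one_ne_zero
  have h2 := low_inj ρ hx hy hz hv h.hω n e he r hn hr0 _ h1
  apply h2
  rw [← Module.End.mul_apply, ← coeff_mul_degree_add_degree, ← map_mul, h0, map_zero, coeff_zero,
    LinearMap.zero_apply]

end words

end Pool.Agent.H18R2.BZD.Q2
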