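import Mathlib
import Pool.Agent.H18R2.BZD.Defs

set_option autoImplicit false
open Polynomial

namespace Pool.Agent.H18R2.BZD.Q1

section alg
variable {k : Type} [Field k] {R : Type} [Ring R] [Algebra k R] (m : ℕ) (x y v : R)

/-- iterated commutators `ad(x)^j v` -/
def ww (x v : R) : ℕ → R
  | 0 => v
  | j + 1 => x * ww x v j - ww x v j * x

theorem ww_comm (h1 : y * x = x * y + 1) (h2 : y * v = v * y) (j : ℕ) :
    y * ww x v j = ww x v j * y := by
  induction j with
  | zero => exact h2
  | succ j ih =>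
    simp only [ww]
    have e1 : y * (x * ww x v j) = x * (ww x v j * y) + ww x v j := by
      rw [← mul_assoc, h1, add_mul, one_mul, mul_assoc, ih]
    have e2 : y * (ww x v j * x) = ww x v j * (x * y) + ww x v j := by
      rw [← mul_assoc, ih, mul_assoc, h1, mul_add, mul_one]
    rw [mul_sub, e1, e2, sub_mul, mul_assoc, mul_assoc]
    abel

theorem ww_succ (h1 : y * x = x * y + 1)
    (h3 : y * (x * v - v * x) = -((m : k) • v)) (j : ℕ) :
    y * ww x v (j + 1) = ((j : k) - m) • ww x v j := by
  induction j with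
  | zero => simp [ww, h3]
  | succ j ih =>
    have e1 : y * (x * ww x v (j + 1)) = ((j : k) - m) • (x * ww x v j) + ww x v (j + 1) := by
      rw [← mul_assoc, h1, add_mul, one_mul, mul_assoc, ih, mul_smul_comm]
    have e2 : y * (ww x v (j + 1) * x) = ((j : k) - m) • (ww x v j * x) := by
      rw [← mul_assoc, ih, smul_mul_assoc]
    have e3 : ww x v (j + 1 + 1) = x * ww x v (j + 1) - ww x v (j + 1) * x := rfl
    have e4 : ww x v (j + 1) = x * ww x v j - ww x v j * x := rfl
    rw [e3, mul_sub, e1, e2]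
    rw [show ((j + 1 : ℕ) : k) - m = ((j : k) - m) + 1 by push_cast; ring, add_smul, one_smul]
    conv_rhs => rw [e4, smul_sub]
    rw [← e4]
    abel

/-- the product `∏_{i<j} (i - m)` -/
def kap (k : Type) [Field k] (m j : ℕ) : k := ∏ i ∈ Finset.range j, ((i : k) - m)

theorem kap_succ (j : ℕ) : kap k m (j + 1) = kap k m j * ((j : k) - m) := by
  simp [kap, Finset.prod_range_succ]

theorem kap_ne (hm : ((m.factorial : ℕ) : k) ≠ 0) (j : ℕ) (hj : j ≤ m) : kap k m j ≠ 0 := by
  unfold kap
  rw [Finset.prod_ne_zero_iff]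
  intro i hi
  rw [Finset.mem_range] at hi
  have hi' : i < m := lt_of_lt_of_le hi hj
  intro h
  have h2 : ((m - i : ℕ) : k) = 0 := by
    rw [Nat.cast_sub hi'.le]
    have := sub_eq_zero.mp h
    rw [this, sub_self]
  apply hm
  have hd : (m - i) ∣ m.factorial := Nat.dvd_factorial (by omega) (by omega)
  obtain ⟨c, hc⟩ := hd
  rw [hc, Nat.cast_mul, h2, zero_mul]

/-- the normalised commutators -/
noncomputable def gg (k : Type) [Field k] {R : Type} [Ring R] [Algebra k R] (m : ℕ) (x v : R)
    (j : ℕ) : R := (kap k m j)⁻¹ • ww x v j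

theorem gg_zero : gg k m x v 0 = v := by simp [gg, kap, ww]

variable {m x y v}
variable (hm : ((m.factorial : ℕ) : k) ≠ 0) (h1 : y * x = x * y + 1) (h2 : y * v = v * y)
  (h3 : y * (x * v - v * x) = -((m : k) • v))

include h1 h2 in
theorem gg_comm (j : ℕ) : y * gg k m x v j = gg k m x v j * y := by
  simp only [gg]
  rw [mul_smul_comm, ww_comm x y v h1 h2, smul_mul_assoc]

include hm h1 h2 h3 in
theorem y_gg (j : ℕ) (hj : j + 1 ≤ m) : y * gg k m x v (j + 1) = gg k m x v j := by
  have hk := kap_ne (k := k) m hm (j + 1) hj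
  rw [kap_succ] at hk
  simp only [gg]
  rw [mul_smul_comm, ww_succ m x y v h1 h3, smul_smul, kap_succ]
  congr 1
  rw [mul_inv, mul_assoc, inv_mul_cancel₀ (right_ne_zero_of_mul hk), mul_one]

include hm in
theorem gg_x (j : ℕ) (hj : j + 1 ≤ m) :
    gg k m x v j * x = x * gg k m x v j - ((j : k) - m) • gg k m x v (j + 1) := by
  have hk := kap_ne (k := k) m hm (j + 1) hj
  rw [kap_succ] at hk
  have e4 : ww x v (j + 1) = x * ww x v j - ww x v j * x := rfl
  simp only [gg]
  rw [smul_smul, kap_succ, mul_inv, mul_comm (kap k m j)⁻¹, ← mul_assoc,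
    mul_inv_cancel₀ (right_ne_zero_of_mul hk), one_mul, e4, smul_sub, mul_smul_comm,
    smul_mul_assoc]
  abel

include hm h1 h2 h3 in
theorem gg_mul (j : ℕ) : ∀ i, i + j ≤ m → gg k m x v i * gg k m x v j = gg k m x v (i + j) * v := by
  induction j with
  | zero => intro i _; rw [gg_zero, add_zero]
  | succ j ih =>
    intro i hi
    have e1 := y_gg hm h1 h2 h3 i (by omega)
    have e2 := y_gg hm h1 h2 h3 j (by omega)
    rw [← e1, gg_comm (k := k) h1 h2, mul_assoc, e2, ih (i + 1) (by omega)]
    congr 2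
    omega

include hm h1 h2 h3 in
theorem y_pow_gg (b : ℕ) : ∀ j, j + b ≤ m → y ^ b * gg k m x v (j + b) = gg k m x v j := by
  induction b with
  | zero => intro j _; simp
  | succ b ih =>
    intro j hj
    rw [pow_succ, mul_assoc, ← add_assoc, y_gg hm h1 h2 h3 (j + b) (by omega), ih j (by omega)]

include h1 in
theorem y_x_pow (a : ℕ) : y * x ^ (a + 1) = x ^ (a + 1) * y + ((a + 1 : ℕ) : k) • x ^ a := by
  induction a with
  | zero => simp [h1]
  | succ a ih =>
    rw [pow_succ x (a + 1), ← mul_assoc, ih, add_mul, mul_assoc, h1, mul_add, ← mul_assoc, mul_one,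
      smul_mul_assoc, ← pow_succ, ← pow_succ, add_assoc]
    congr 1
    rw [show (((a + 1 + 1 : ℕ)) : k) = 1 + ((a + 1 : ℕ) : k) by push_cast; ring, add_smul, one_smul]

/-- The filtration. -/
def SS (k : Type) [Field k] {R : Type} [Ring R] [Algebra k R] (m : ℕ) (x y v : R) (e : ℕ) :
    Submodule k R :=
  Submodule.span k ({w | ∃ a b : ℕ, a ≤ e ∧ w = x ^ a * y ^ b} ∪
    {w | ∃ a b j c : ℕ, a + j ≤ e ∧ w = x ^ a * (y ^ b * (gg k m x v j * v ^ c))})

theorem SS_mono {e e' : ℕ} (h : e ≤ e') : SS k m x y v e ≤ SS k m x y v e' := by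
  apply Submodule.span_mono
  rintro w (⟨a, b, ha, rfl⟩ | ⟨a, b, j, c, ha, rfl⟩)
  · exact Or.inl ⟨a, b, ha.trans h, rfl⟩
  · exact Or.inr ⟨a, b, j, c, ha.trans h, rfl⟩

theorem mem1 {e : ℕ} (a b : ℕ) (h : a ≤ e) : x ^ a * y ^ b ∈ SS k m x y v e :=
  Submodule.subset_span (Or.inl ⟨a, b, h, rfl⟩)

theorem mem2 {e : ℕ} (a b j c : ℕ) (h : a + j ≤ e) :
    x ^ a * (y ^ b * (gg k m x v j * v ^ c)) ∈ SS k m x y v e :=
  Submodule.subset_span (Or.inr ⟨a, b, j, c, h, rfl⟩)

theorem SS_x {e : ℕ} {r : R} (hr : r ∈ SS k m x y v e) : x * r ∈ SS k m x y v (e + 1) := by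
  induction hr using Submodule.span_induction with
  | mem w hw =>
    rcases hw with ⟨a, b, ha, rfl⟩ | ⟨a, b, j, c, ha, rfl⟩
    · rw [← mul_assoc, ← pow_succ']; exact mem1 _ _ (by omega)
    · rw [← mul_assoc, ← pow_succ']; exact mem2 _ _ _ _ (by omega)
  | zero => simp
  | add a b _ _ ha hb => rw [mul_add]; exact add_mem ha hb
  | smul c a _ ha => rw [mul_smul_comm]; exact Submodule.smul_mem _ _ ha

include h1 in
theorem SS_y {e : ℕ} {r : R} (hr : r ∈ SS k m x y v e) : y * r ∈ SS k m x y v e := by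
  induction hr using Submodule.span_induction with
  | mem w hw =>
    rcases hw with ⟨a, b, ha, rfl⟩ | ⟨a, b, j, c, ha, rfl⟩
    · rcases a with _ | a
      · rw [pow_zero, one_mul, ← pow_succ']
        have := mem1 (k := k) (m := m) (x := x) (y := y) (v := v) (e := e) 0 (b + 1) (by omega)
        simpa using this
      · rw [← mul_assoc, y_x_pow (k := k) h1, add_mul, smul_mul_assoc, mul_assoc, ← pow_succ']
        exact add_mem (mem1 _ _ ha) (Submodule.smul_mem _ _ (mem1 _ _ (by omega)))
    · rcases a with _ | a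
      · rw [pow_zero, one_mul, ← mul_assoc, ← pow_succ']
        have := mem2 (k := k) (m := m) (x := x) (y := y) (v := v) (e := e) 0 (b + 1) j c (by omega)
        simpa using this
      · rw [← mul_assoc, y_x_pow (k := k) h1, add_mul, smul_mul_assoc, mul_assoc, ← mul_assoc y,
          ← pow_succ']
        exact add_mem (mem2 _ _ _ _ ha) (Submodule.smul_mem _ _ (mem2 _ _ _ _ (by omega)))
  | zero => simp
  | add a b _ _ ha hb => rw [mul_add]; exact add_mem ha hb
  | smul c a _ ha => rw [mul_smul_comm]; exact Submodule.smul_mem _ _ ha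

include hm h1 h2 h3 in
theorem gg_SS2 (a : ℕ) : ∀ i b j c : ℕ, i + a + j ≤ m →
    gg k m x v i * (x ^ a * (y ^ b * (gg k m x v j * v ^ c))) ∈ SS k m x y v (i + a + j) := by
  induction a with
  | zero =>
    intro i b j c h
    have hyb : gg k m x v i * y ^ b = y ^ b * gg k m x v i := by
      have : Commute (gg k m x v i) y := (gg_comm (k := k) (m := m) h1 h2 i).symm
      exact this.pow_right b
    have hg := gg_mul hm h1 h2 h3 j i (by omega)
    have : gg k m x v i * (x ^ 0 * (y ^ b * (gg k m x v j * v ^ c)))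
        = x ^ 0 * (y ^ b * (gg k m x v (i + j) * v ^ (c + 1))) := by
      rw [pow_zero, one_mul, one_mul, ← mul_assoc, hyb, mul_assoc, ← mul_assoc (gg k m x v i), hg,
        mul_assoc (gg k m x v (i + j)), ← pow_succ']
    rw [this]
    exact mem2 _ _ _ _ (by omega)
  | succ a ih =>
    intro i b j c h
    rw [pow_succ', mul_assoc, ← mul_assoc, gg_x hm i (by omega), sub_mul, mul_assoc,
      smul_mul_assoc]
    apply sub_mem
    · have := SS_x (ih i b j c (by omega))
      exact SS_mono (by omega) this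
    · apply Submodule.smul_mem
      have := ih (i + 1) b j c (by omega)
      exact SS_mono (by omega) this

include hm h1 h2 in
theorem gg_SS1 (a : ℕ) : ∀ i b : ℕ, i + a ≤ m →
    gg k m x v i * (x ^ a * y ^ b) ∈ SS k m x y v (i + a) := by
  induction a with
  | zero =>
    intro i b h
    have hyb : gg k m x v i * y ^ b = y ^ b * gg k m x v i := by
      have : Commute (gg k m x v i) y := (gg_comm (k := k) (m := m) h1 h2 i).symm
      exact this.pow_right b
    have : gg k m x v i * (x ^ 0 * y ^ b)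
        = x ^ 0 * (y ^ b * (gg k m x v i * v ^ 0)) := by
      rw [pow_zero, one_mul, one_mul, pow_zero, mul_one, hyb]
    rw [this]
    exact mem2 _ _ _ _ (by omega)
  | succ a ih =>
    intro i b h
    rw [pow_succ', mul_assoc, ← mul_assoc, gg_x hm i (by omega), sub_mul, mul_assoc,
      smul_mul_assoc]
    apply sub_mem
    · have := SS_x (ih i b (by omega))
      exact SS_mono (by omega) this
    · apply Submodule.smul_mem
      have := ih (i + 1) b (by omega)
      exact SS_mono (by omega) this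

include hm h1 h2 h3 in
theorem SS_v {e : ℕ} (he : e ≤ m) {r : R} (hr : r ∈ SS k m x y v e) :
    v * r ∈ SS k m x y v e := by
  induction hr using Submodule.span_induction with
  | mem w hw =>
    rcases hw with ⟨a, b, ha, rfl⟩ | ⟨a, b, j, c, ha, rfl⟩
    · have := gg_SS1 (k := k) hm h1 h2 a 0 b (by omega)
      rw [gg_zero] at this
      exact SS_mono (by omega) this
    · have := gg_SS2 (k := k) hm h1 h2 h3 a 0 b j c (by omega)
      rw [gg_zero] at this
      exact SS_mono (by omega) this
  | zero => simp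
  | add a b _ _ ha hb => rw [mul_add]; exact add_mem ha hb
  | smul c a _ ha => rw [mul_smul_comm]; exact Submodule.smul_mem _ _ ha

include hm h1 h2 h3 in
theorem word_mem (l : List (Fin 3)) (hl : l.length ≤ m) :
    (l.map ![x, y, v]).prod ∈ SS k m x y v l.length := by
  induction l with
  | nil => simpa using mem1 (k := k) (m := m) (x := x) (y := y) (v := v) (e := 0) 0 0 le_rfl
  | cons i l ih =>
    rw [List.length_cons] at hl
    have ih' := ih (by omega)
    rw [List.map_cons, List.prod_cons, List.length_cons]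
    fin_cases i
    · exact SS_x ih'
    · exact SS_mono (by omega) (SS_y h1 ih')
    · exact SS_mono (by omega) (SS_v hm h1 h2 h3 (by omega) ih')

/-- normal forms -/
noncomputable def nf (k : Type) [Field k] {R : Type} [Ring R] [Algebra k R] (m : ℕ) (x y v : R)
    (e : ℕ) : ℕ × ℕ × ℕ → R
  | (a, b, 0) => x ^ a * y ^ b
  | (a, b, c + 1) => x ^ a * (y ^ b * (gg k m x v e * v ^ c))

include hm h1 h2 h3 in
theorem SS_le {e : ℕ} (he : e ≤ m) :
    SS k m x y v e ≤ Submodule.span k (Set.range (nf k m x y v e)) := by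
  apply Submodule.span_le.mpr
  rintro w (⟨a, b, ha, rfl⟩ | ⟨a, b, j, c, ha, rfl⟩)
  · exact Submodule.subset_span ⟨(a, b, 0), rfl⟩
  · apply Submodule.subset_span
    refine ⟨(a, b + (e - j), c + 1), ?_⟩
    simp only [nf]
    have := y_pow_gg hm h1 h2 h3 (e - j) j (by omega)
    rw [show j + (e - j) = e by omega] at this
    rw [pow_add, mul_assoc (y ^ b), ← mul_assoc (y ^ (e - j)), this]

end alg

end Pool.Agent.H18R2.BZD.Q1
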