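import Mathlib
import Pool.Agent.H18R2.BZD.Defs
import Pool.Agent.H18R2.BZD.Lead
import Pool.Agent.H18R2.BZD.Q1

set_option autoImplicit false
open Polynomial

namespace Pool.Agent.H18R2.BZD.Q1

variable (k : Type) [Field k] (m : ℕ)

/-- the coefficient ring `k[t][y]` -/
def PP : Type := k[X][X]

noncomputable instance : CommRing (PP k) := inferInstanceAs (CommRing k[X][X])
noncomputable instance : Algebra k (PP k) := inferInstanceAs (Algebra k k[X][X])
instance : IsDomain (PP k) := inferInstanceAs (IsDomain k[X][X])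

/-- the element `t^c y^b` -/
noncomputable def mo (b c : ℕ) : PP k := (monomial b (monomial c (1 : k)) : k[X][X])

theorem mo_mul (b c b' c' : ℕ) : mo k b c * mo k b' c' = mo k (b + b') (c + c') := by
  have : (monomial b (monomial c (1 : k)) : k[X][X]) * monomial b' (monomial c' (1 : k))
    = monomial (b + b') (monomial (c + c') (1 : k)) := by
    rw [monomial_mul_monomial, monomial_mul_monomial, one_mul]
  exact this

theorem mo_one : mo k 0 0 = 1 := rfl

theorem mo_pow (b c n : ℕ) : mo k b c ^ n = mo k (n * b) (n * c) := by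
  induction n with
  | zero => simp [mo_one]
  | succ n ih => rw [pow_succ, ih, mo_mul]; congr 1 <;> ring

/-- `d/dy` on `k[t][y]` -/
noncomputable def dd : Derivation k (PP k) (PP k) :=
  ((Polynomial.derivative' : Derivation k[X] k[X][X] k[X][X]).restrictScalars k :
    Derivation k k[X][X] k[X][X])

theorem dd_mo (b c : ℕ) : dd k (mo k b c) = (b : k) • mo k (b - 1) c := by
  have : derivative (monomial b (monomial c (1 : k)) : k[X][X])
      = (b : k) • (monomial (b - 1) (monomial c (1 : k)) : k[X][X]) := by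
    rw [derivative_monomial, smul_monomial, smul_monomial]
    congr 1
    rw [← C_mul_X_pow_eq_monomial, ← C_mul_X_pow_eq_monomial, smul_eq_mul, mul_one, map_one,
      one_mul, mul_comm, map_natCast]
  exact this

noncomputable def x1 : Module.End k (PP k)[X] := xo (dd k : PP k →ₗ[k] PP k)
noncomputable def y1 : Module.End k (PP k)[X] := ml k (mo k 1 0)
noncomputable def v1 : Module.End k (PP k)[X] := ml k (mo k m 1)

theorem comm1 (p : PP k) : x1 k * ml k p - ml k p * x1 k = ml k (-(dd k p)) := xo_ml (dd k) p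

theorem rel1 : y1 k * x1 k = x1 k * y1 k + 1 := by
  have := comm1 k (mo k 1 0)
  rw [dd_mo, Nat.cast_one, one_smul, Nat.sub_self, mo_one, map_neg, map_one] at this
  have h : y1 k * x1 k = x1 k * y1 k - (x1 k * y1 k - y1 k * x1 k) := by abel
  rw [h]
  rw [show x1 k * y1 k - y1 k * x1 k = -1 from this]; abel

theorem rel2 : y1 k * v1 k m = v1 k m * y1 k := by
  rw [y1, v1, ← map_mul, ← map_mul, mul_comm]

theorem rel3 : y1 k * (x1 k * v1 k m - v1 k m * x1 k) = -((m : k) • v1 k m) := by
  rw [v1, comm1, y1, ← map_mul, dd_mo, ← map_smul, ← map_neg]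
  congr 1
  rcases m with _ | m
  · simp
  · rw [mul_neg, mul_smul_comm, Nat.add_sub_cancel, mo_mul, add_comm 1 m, zero_add]

theorem ww1 (j : ℕ) (hj : j ≤ m) :
    ww (x1 k) (v1 k m) j = ml k (kap k m j • mo k (m - j) 1) := by
  induction j with
  | zero => simp [ww, kap, v1]
  | succ j ih =>
    rw [ww, ih (by omega), comm1, Derivation.map_smul, dd_mo, kap_succ]
    congr 1
    rw [smul_smul, ← neg_smul, Nat.sub_sub]
    congr 1
    rw [Nat.cast_sub (by omega)]
    ring

theorem gg1 (hm : ((m.factorial : ℕ) : k) ≠ 0) (j : ℕ) (hj : j ≤ m) :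
    gg k m (x1 k) (v1 k m) j = ml k (mo k (m - j) 1) := by
  rw [gg, ww1 k m j hj, ← map_smul, smul_smul, inv_mul_cancel₀ (kap_ne m hm j hj), one_smul]

/-- exponent of `y` -/
def BB (m e b : ℕ) : ℕ → ℕ
  | 0 => b
  | c + 1 => b + (m - e) + m * c

/-- monomials -/
noncomputable def mu (e : ℕ) (i : ℕ × ℕ × ℕ) : (PP k)[X] :=
  monomial i.1 (mo k (BB m e i.2.1 i.2.2) i.2.2)

theorem nf1 (hm : ((m.factorial : ℕ) : k) ≠ 0) (e : ℕ) (he : e ≤ m) (i : ℕ × ℕ × ℕ) :
    nf k m (x1 k) (y1 k) (v1 k m) e i = NN (dd k : PP k →ₗ[k] PP k) (mu k m e i) := by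
  obtain ⟨a, b, c⟩ := i
  rw [mu, NN_monomial]
  rcases c with _ | c
  · simp only [nf, BB]
    rw [y1, ← map_pow, x1, mo_pow]
    congr 2
    simp
  · simp only [nf, BB]
    rw [gg1 k m hm e he, y1, v1, ← map_pow, ← map_pow, ← map_mul, ← map_mul, x1, mo_pow, mo_pow,
      mo_mul, mo_mul]
    congr 3 <;> ring

/-- the coefficient functional -/
noncomputable def co (b c : ℕ) : PP k →ₗ[k] k :=
  (Polynomial.lcoeff k c) ∘ₗ ((Polynomial.lcoeff k[X] b).restrictScalars k :
    k[X][X] →ₗ[k] k[X])

theorem co_mo (b c b' c' : ℕ) : co k b c (mo k b' c') = if b' = b ∧ c' = c then 1 else 0 := by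
  have : ((monomial b' (monomial c' (1 : k)) : k[X][X]).coeff b).coeff c
      = if b' = b ∧ c' = c then 1 else 0 := by
    rw [coeff_monomial]
    by_cases h : b' = b
    · rw [if_pos h, coeff_monomial]
      by_cases h' : c' = c
      · simp [h, h']
      · simp [h']
    · simp [h]
  exact this

theorem mu_indep (e : ℕ) (φ : ℕ × ℕ × ℕ →₀ k) (h : Finsupp.linearCombination k (mu k m e) φ = 0) :
    φ = 0 := by
  ext ⟨a0, b0, c0⟩
  have h2 : co k (BB m e b0 c0) c0 ((Finsupp.linearCombination k (mu k m e) φ).coeff a0)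
      = 0 := by rw [h]; simp
  rw [Finsupp.linearCombination_apply, Finsupp.sum, finsetSum_coeff, map_sum] at h2
  rw [Finsupp.zero_apply, ← h2]
  symm
  have key : ∀ i : ℕ × ℕ × ℕ, i ≠ (a0, b0, c0) →
      co k (BB m e b0 c0) c0 ((φ i • mu k m e i).coeff a0) = 0 := by
    rintro ⟨a, b, c⟩ hne
    simp only [mu, coeff_smul, coeff_monomial, map_smul]
    split_ifs with h3
    · rw [co_mo]
      rw [if_neg, smul_zero]
      rintro ⟨h4, h5⟩
      apply hne
      subst h5
      subst h3
      have : b = b0 := by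
        rcases c with _ | c
        · simpa [BB] using h4
        · simp only [BB] at h4; omega
      rw [this]
    · simp
  by_cases hs : (a0, b0, c0) ∈ φ.support
  · rw [Finset.sum_eq_single_of_mem _ hs (fun i _ hi => key i hi)]
    simp [mu, co_mo]
  · rw [Finsupp.notMem_support_iff.mp hs]
    apply Finset.sum_eq_zero
    intro i hmem
    exact key i (fun h => hs (h ▸ hmem))

/-- If `R` satisfies the relations and maps to the operators, the elements of low filtration are
detected by the operator representation, and nonzero ones act injectively. -/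
theorem low_inj {R : Type} [Ring R] [Algebra k R] {x y v : R}
    (hm : ((m.factorial : ℕ) : k) ≠ 0) (h1 : y * x = x * y + 1) (h2 : y * v = v * y)
    (h3 : y * (x * v - v * x) = -((m : k) • v))
    (ρ : R →ₐ[k] Module.End k (PP k)[X]) (hx : ρ x = x1 k) (hy : ρ y = y1 k) (hv : ρ v = v1 k m)
    (e : ℕ) (he : e ≤ m) (r : R) (hr : r ∈ SS k m x y v e) (hr0 : r ≠ 0) (f : (PP k)[X])
    (hf : f ≠ 0) : ρ r f ≠ 0 := by
  have hr' := SS_le hm h1 h2 h3 he hr
  rw [Finsupp.mem_span_range_iff_exists_finsupp] at hr'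
  obtain ⟨φ, hφ⟩ := hr'
  have hww : ∀ j, ρ (ww x v j) = ww (x1 k) (v1 k m) j := by
    intro j
    induction j with
    | zero => simpa [ww] using hv
    | succ j ih => simp only [ww, map_sub, map_mul, ih, hx]
  have hgg : ρ (gg k m x v e) = gg k m (x1 k) (v1 k m) e := by
    rw [gg, gg, map_smul, hww]
  have hnf : ∀ i, ρ (nf k m x y v e i) = NN (dd k : PP k →ₗ[k] PP k) (mu k m e i) := by
    intro i
    rw [← nf1 k m hm e he]
    obtain ⟨a, b, c⟩ := i
    rcases c with _ | c
    · simp only [nf, map_mul, map_pow, hx, hy]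
    · simp only [nf, map_mul, map_pow, hx, hy, hgg, hv]
  have hρ : ρ r = NN (dd k : PP k →ₗ[k] PP k) (Finsupp.linearCombination k (mu k m e) φ) := by
    rw [← hφ, Finsupp.linearCombination_apply, Finsupp.sum, Finsupp.sum, map_sum, map_sum]
    apply Finset.sum_congr rfl
    intro i _
    rw [map_smul, map_smul, hnf]
  rw [hρ]
  apply NN_ne _ _ _ _ hf
  intro h0
  apply hr0
  have := mu_indep k m e φ h0
  rw [← hφ, this]
  simp

/-! ### The second representation: functions on the integers -/

/-- `x e_i = e_{i+1}` -/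
def x2 : Module.End k (ℤ → k) where
  toFun f := fun i => f (i - 1)
  map_add' f g := by ext i; simp
  map_smul' c f := by ext i; simp

/-- `y e_i = i e_{i-1}` -/
def y2 : Module.End k (ℤ → k) where
  toFun f := fun i => ((i + 1 : ℤ) : k) * f (i + 1)
  map_add' f g := by ext i; simp [mul_add]
  map_smul' c f := by ext i; simp; ring

/-- the coefficient -/
def cc (i : ℤ) : k := ((i.toNat.choose m : ℕ) : k)

/-- `v e_i = c_i e_{i-m}` -/
def v2 : Module.End k (ℤ → k) where
  toFun f := fun i => cc k m (i + m) * f (i + m)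
  map_add' f g := by ext i; simp [mul_add]
  map_smul' c f := by ext i; simp; ring

theorem cc_rec (hm : 1 ≤ m) (i : ℤ) :
    ((i + 1 : ℤ) : k) * cc k m (i + 1 + m) = ((i + 1 + m : ℤ) : k) * cc k m (i + m) := by
  rcases lt_or_ge (i + m) 0 with h | h
  · rcases lt_or_ge (i + 1 + m) 0 with h' | h'
    · have e1 : (i + 1 + m).toNat = 0 := by omega
      have e2 : (i + m).toNat = 0 := by omega
      rw [cc, cc, e1, e2, Nat.choose_eq_zero_of_lt (by omega)]; simp
    · have e0 : i + 1 + m = 0 := by omega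
      have e1 : (i + 1 + m).toNat = 0 := by omega
      rw [cc, e1, e0, Nat.choose_eq_zero_of_lt (by omega)]; simp
  · obtain ⟨n, hn⟩ : ∃ n : ℕ, i + m = n := ⟨(i + m).toNat, by omega⟩
    have e1 : (i + 1 + m).toNat = n + 1 := by omega
    have e2 : (i + m).toNat = n := by omega
    have e3 : i + 1 = (n : ℤ) + 1 - m := by omega
    have e4 : i + 1 + m = (n : ℤ) + 1 := by omega
    rw [cc, cc, e1, e2, e3, show (n : ℤ) + 1 - m + m = (n : ℤ) + 1 by ring]
    rcases le_or_gt m (n + 1) with h5 | h5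
    · have := Nat.choose_mul_succ_eq n m
      have h6 : ((n.choose m * (n + 1) : ℕ) : k) = (((n + 1).choose m * (n + 1 - m) : ℕ) : k) := by
        rw [this]
      rw [Nat.cast_mul, Nat.cast_mul, Nat.cast_sub h5] at h6
      push_cast at h6 ⊢
      rw [mul_comm, ← h6]; ring
    · rw [Nat.choose_eq_zero_of_lt h5, Nat.choose_eq_zero_of_lt (by omega)]; simp

theorem rel1' : y2 k * x2 k = x2 k * y2 k + 1 := by
  apply LinearMap.ext; intro f; ext i
  simp only [Module.End.mul_apply, LinearMap.add_apply, Module.End.one_apply, y2, x2,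
    LinearMap.coe_mk, AddHom.coe_mk, Pi.add_apply]
  have e1 : i + 1 - 1 = i := by ring
  have e2 : i - 1 + 1 = i := by ring
  rw [e1, e2]; push_cast; ring

theorem rel2' (hm : 1 ≤ m) : y2 k * v2 k m = v2 k m * y2 k := by
  apply LinearMap.ext; intro f; ext i
  simp only [Module.End.mul_apply, y2, v2, LinearMap.coe_mk, AddHom.coe_mk]
  have := cc_rec k m hm i
  have e1 : i + m + 1 = i + 1 + m := by ring
  rw [e1, ← mul_assoc, ← mul_assoc, this]; ring

theorem rel3' (hm : 1 ≤ m) :
    y2 k * (x2 k * v2 k m - v2 k m * x2 k) = -((m : k) • v2 k m) := by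
  apply LinearMap.ext; intro f; ext i
  simp only [Module.End.mul_apply, y2, v2, x2, LinearMap.coe_mk, AddHom.coe_mk,
    LinearMap.sub_apply, Pi.sub_apply, LinearMap.neg_apply, Pi.neg_apply, LinearMap.smul_apply,
    Pi.smul_apply, smul_eq_mul]
  have := cc_rec k m hm i
  have e1 : i + 1 - 1 + m = i + m := by ring
  have e2 : i + 1 + m - 1 = i + m := by ring
  rw [e1, e2, mul_sub, ← mul_assoc _ (cc k m (i + 1 + m)), this]; push_cast; ring

theorem ww2_zero (hm : 1 ≤ m) (j : ℕ) : ∀ i : ℤ, i < (m : ℤ) - j →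
    ww (x2 k) (v2 k m) j (Pi.single i 1) = 0 := by
  induction j with
  | zero =>
    intro i hi
    ext l
    simp only [ww, v2, LinearMap.coe_mk, AddHom.coe_mk, Pi.zero_apply]
    by_cases h : l + m = i
    · have : (l + m).toNat < m := by omega
      rw [cc, Nat.choose_eq_zero_of_lt this]; simp
    · rw [Pi.single_eq_of_ne h, mul_zero]
  | succ j ih =>
    intro i hi
    push_cast at hi
    have e1 : x2 k (Pi.single i 1) = Pi.single (i + 1) 1 := by
      ext l
      simp only [x2, LinearMap.coe_mk, AddHom.coe_mk]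
      by_cases h : l = i + 1
      · subst h; simp
      · rw [Pi.single_eq_of_ne h, Pi.single_eq_of_ne (show l - 1 ≠ i by omega)]
    simp only [ww, LinearMap.sub_apply, Module.End.mul_apply]
    rw [e1, ih i (by omega), ih (i + 1) (by omega)]; simp

theorem ww2_ne (hm : 1 ≤ m) (j : ℕ) : ∃ s : k, s ≠ 0 ∧
    ww (x2 k) (v2 k m) j (Pi.single ((m : ℤ) - j) 1) = Pi.single 0 s := by
  induction j with
  | zero =>
    refine ⟨1, one_ne_zero, ?_⟩
    ext l
    simp only [ww, v2, LinearMap.coe_mk, AddHom.coe_mk, Nat.cast_zero, sub_zero]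
    by_cases h : l = 0
    · subst h; simp [cc]
    · rw [Pi.single_eq_of_ne h, Pi.single_eq_of_ne (show l + m ≠ m by omega), mul_zero]
  | succ j ih =>
    obtain ⟨s, hs, h⟩ := ih
    refine ⟨-s, neg_ne_zero.mpr hs, ?_⟩
    have e1 : x2 k (Pi.single ((m : ℤ) - (j + 1 : ℕ)) 1) = Pi.single ((m : ℤ) - j) 1 := by
      ext l
      simp only [x2, LinearMap.coe_mk, AddHom.coe_mk]
      by_cases h : l = (m : ℤ) - j
      · subst h
        rw [show (m : ℤ) - j - 1 = (m : ℤ) - (j + 1 : ℕ) by push_cast; ring]; simp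
      · rw [Pi.single_eq_of_ne h, Pi.single_eq_of_ne (show l - 1 ≠ (m : ℤ) - (j + 1 : ℕ) by push_cast; omega)]
    simp only [ww, LinearMap.sub_apply, Module.End.mul_apply]
    rw [e1, h, ww2_zero k m hm j _ (by push_cast; omega), map_zero, zero_sub, Pi.single_neg]

end Pool.Agent.H18R2.BZD.Q1
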