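import Mathlib
import Pool.Agent.H18R2.BZD.A
import Pool.Agent.H18R2.BZD.B
import Pool.Agent.H18R2.BZD.Q1b

set_option autoImplicit false
set_option linter.unusedSectionVars false
open Polynomial

namespace Pool.Agent.H18R2.BZD.Q2
open Pool.Agent.H18R2.BZD.Q1

section
variable (k : Type) [Field k] (ω : k)

/-- the module of pairs of functions on the integers -/
abbrev VV : Type := (ℤ → k) × (ℤ → k)

/-- `f ↦ f(-1) e_0` -/
def v0 : Module.End k (ℤ → k) where
  toFun f := Pi.single 0 (f (-1))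
  map_add' f g := by rw [Pi.add_apply, Pi.single_add]
  map_smul' c f := by rw [Pi.smul_apply, RingHom.id_apply, Pi.single_smul]

theorem v0_apply (f : ℤ → k) : v0 k f = Pi.single 0 (f (-1)) := rfl

theorem y2_v0 : y2 k * v0 k = 0 := by
  apply LinearMap.ext
  intro f
  ext i
  rw [Module.End.mul_apply, v0_apply, y2, LinearMap.coe_mk, AddHom.coe_mk, LinearMap.zero_apply,
    Pi.zero_apply]
  by_cases h : i + 1 = 0
  · rw [h]; simp
  · rw [Pi.single_eq_of_ne h, mul_zero]

theorem v0_y2 : v0 k * y2 k = 0 := by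
  apply LinearMap.ext
  intro f
  ext i
  rw [Module.End.mul_apply, v0_apply, y2, LinearMap.coe_mk, AddHom.coe_mk, LinearMap.zero_apply,
    Pi.zero_apply]
  simp

/-- the corner operator -/
def vV : Module.End k (VV k) := LinearMap.inl k _ _ ∘ₗ v0 k ∘ₗ LinearMap.snd k _ _

theorem vV_apply (a : VV k) : vV k a = (v0 k a.2, 0) := rfl

/-- the operator `x` -/
def xV : Module.End k (VV k) := (x2 k).prodMap (ω ^ 2 • x2 k)

/-- the operator `y` -/
def yV : Module.End k (VV k) := (1 + y2 k).prodMap (ω • (1 + y2 k))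

theorem y2_pow (m : ℕ) (f : ℤ → k) (i : ℤ) :
    (y2 k ^ m) f i = (∏ j ∈ Finset.range m, ((i + 1 + j : ℤ) : k)) * f (i + m) := by
  induction m generalizing i with
  | zero => simp
  | succ m ih =>
    rw [pow_succ', Module.End.mul_apply]
    show ((i + 1 : ℤ) : k) * (y2 k ^ m) f (i + 1) = _
    rw [ih, Finset.prod_range_succ', ← mul_assoc]
    congr 1
    · rw [mul_comm]
      congr 1
      · apply Finset.prod_congr rfl
        intro j _
        push_cast; ring
      · push_cast; ring
    · congr 1; push_cast; ring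

theorem y2_pow_p (p : ℕ) (hp : (p : k) = 0) (hp0 : 0 < p) : y2 k ^ p = 0 := by
  apply LinearMap.ext
  intro f
  ext i
  rw [y2_pow, LinearMap.zero_apply, Pi.zero_apply, Finset.prod_eq_zero, zero_mul]
  · exact Finset.mem_range.mpr (show ((-(i + 1)) % (p : ℤ)).toNat < p by
      have := Int.emod_lt_of_pos (-(i + 1)) (show (0 : ℤ) < p by omega)
      have := Int.emod_nonneg (-(i + 1)) (show (p : ℤ) ≠ 0 by omega)
      omega)
  · have h1 := Int.emod_nonneg (-(i + 1)) (show (p : ℤ) ≠ 0 by omega)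
    rw [Int.toNat_of_nonneg h1]
    have h2 := Int.mul_ediv_add_emod (-(i + 1)) p
    have h3 : i + 1 + -(i + 1) % (p : ℤ) = p * (-(-(i + 1) / (p : ℤ))) := by
      linarith
    rw [h3]; push_cast; rw [hp, zero_mul]

theorem unit_add (p : ℕ) (hp : (p : k) = 0) (hp0 : 0 < p) (a : k) (ha : a ≠ 0) :
    IsUnit (algebraMap k (Module.End k (ℤ → k)) a + y2 k) := by
  apply IsNilpotent.isUnit_add_left_of_commute
  · exact ⟨p, y2_pow_p k p hp hp0⟩
  · exact (IsUnit.mk0 a ha).map (algebraMap k _)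
  · exact Algebra.commute_algebraMap_right a (y2 k)

theorem exists_z (p : ℕ) (hp : (p : k) = 0) (hp0 : 0 < p) (h3 : (3 : k) ≠ 0)
    (hω : ω ^ 2 + ω + 1 = 0) : ∃ z : Module.End k (VV k), Rel ω (xV k ω) (yV k ω) z (vV k) := by
  have hw1 : ω ≠ 1 := by
    rintro rfl
    apply h3
    rw [← hω]; norm_num
  have hw0 := omega_ne hω
  have hw3 := omega3 hω
  have hw2 : ω ^ 2 ≠ 1 := by
    intro h
    apply hw1
    rw [pow_succ, h, one_mul] at hw3
    exact hw3
  obtain ⟨U, hU⟩ := unit_add k p hp hp0 (1 - ω ^ 2) (sub_ne_zero.mpr hw2.symm)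
  obtain ⟨W, hW⟩ := unit_add k p hp hp0 (1 - ω) (sub_ne_zero.mpr hw1.symm)
  have e1 : yV k ω - algebraMap k _ (ω ^ 2)
      = (U : Module.End k (ℤ → k)).prodMap (ω • (W : Module.End k (ℤ → k))) := by
    rw [hU, hW]
    apply LinearMap.ext
    rintro ⟨f, g⟩
    simp only [yV, LinearMap.sub_apply, LinearMap.prodMap_apply, Module.algebraMap_end_apply,
      LinearMap.add_apply, Module.End.one_apply, LinearMap.smul_apply, Prod.smul_mk, Prod.mk_sub_mk]
    congr 1
    · rw [sub_smul, one_smul]; abel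
    · rw [sub_smul, one_smul, smul_add, smul_add, smul_sub, smul_smul, ← pow_two]; abel
  refine ⟨(↑U⁻¹ : Module.End k (ℤ → k)).prodMap (ω⁻¹ • (↑W⁻¹ : Module.End k (ℤ → k))),
    hω, ?_, ?_, ?_, ?_, ?_⟩
  · rw [yV, xV, LinearMap.prodMap_mul, LinearMap.prodMap_mul, ← LinearMap.prodMap_one,
      ← LinearMap.prodMap_add]
    have e2 := rel1' k
    congr 1
    · rw [add_mul, mul_add, one_mul, mul_one, e2]; abel
    · rw [smul_mul_smul_comm, smul_mul_smul_comm, show ω * ω ^ 2 = ω ^ 3 by ring,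
        show ω ^ 2 * ω = ω ^ 3 by ring, hw3, one_smul, one_smul, add_mul, mul_add, one_mul,
        mul_one, e2]; abel
  · apply LinearMap.ext
    rintro ⟨f, g⟩
    rw [Module.End.mul_apply, LinearMap.smul_apply, Module.End.mul_apply, vV_apply, vV_apply, yV,
      LinearMap.prodMap_apply, LinearMap.prodMap_apply]
    simp only [Prod.smul_mk, map_zero, smul_zero]
    congr 1
    rw [LinearMap.smul_apply, map_smul]
    congr 1
    have e3 : v0 k (y2 k g) = 0 := by rw [← Module.End.mul_apply, v0_y2]; rfl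
    have e4 : y2 k (v0 k g) = 0 := by rw [← Module.End.mul_apply, y2_v0]; rfl
    rw [LinearMap.add_apply, LinearMap.add_apply, map_add, e3, e4]; rfl
  · have e5 : (yV k ω - 1) * vV k = 0 := by
      apply LinearMap.ext
      rintro ⟨f, g⟩
      have e4 : y2 k (v0 k g) = 0 := by rw [← Module.End.mul_apply, y2_v0]; rfl
      rw [Module.End.mul_apply, LinearMap.sub_apply, Module.End.one_apply, vV_apply, yV,
        LinearMap.prodMap_apply, LinearMap.zero_apply]
      simp only [LinearMap.add_apply, Module.End.one_apply, e4, add_zero, map_zero, sub_self]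
    rw [e5, zero_mul, smul_zero, mul_zero]
  · rw [e1, LinearMap.prodMap_mul, smul_mul_smul_comm, Units.inv_mul, Units.inv_mul,
      inv_mul_cancel₀ hw0, one_smul, LinearMap.prodMap_one]
  · rw [e1, LinearMap.prodMap_mul, smul_mul_smul_comm, Units.mul_inv, Units.mul_inv,
      mul_inv_cancel₀ hw0, one_smul, LinearMap.prodMap_one]

/-- iterated commutators in the corner -/
def vk : ℕ → Module.End k (ℤ → k)
  | 0 => v0 k
  | j + 1 => vk j * x2 k - x2 k * vk j

theorem vj_vk (hω : ω ^ 2 + ω + 1 = 0) (j : ℕ) (a : VV k) :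
    vj ω (xV k ω) (vV k) j a = (vk k j a.2, 0) := by
  have hw3 := omega3 hω
  induction j generalizing a with
  | zero => rfl
  | succ j ih =>
    obtain ⟨f, g⟩ := a
    rw [vj, LinearMap.sub_apply, LinearMap.smul_apply, Module.End.mul_apply, Module.End.mul_apply,
      ih, ih, xV, LinearMap.prodMap_apply, LinearMap.prodMap_apply]
    simp only [LinearMap.smul_apply, map_smul, Prod.smul_mk, smul_smul, map_zero, smul_zero,
      Prod.mk_sub_mk, sub_zero]
    rw [show ω * ω ^ 2 = ω ^ 3 by ring, hw3, one_smul]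
    rfl

theorem x2_single (i : ℤ) (c : k) : x2 k (Pi.single i c) = Pi.single (i + 1) c := by
  ext l
  simp only [x2, LinearMap.coe_mk, AddHom.coe_mk]
  by_cases h : l = i + 1
  · subst h; simp
  · rw [Pi.single_eq_of_ne h, Pi.single_eq_of_ne (show l - 1 ≠ i by omega)]

theorem vk_zero (j : ℕ) : ∀ i : ℤ, i < -1 - j → vk k j (Pi.single i 1) = 0 := by
  induction j with
  | zero =>
    intro i hi
    rw [vk, v0_apply, Pi.single_eq_of_ne (show (-1 : ℤ) ≠ i by push_cast at hi; omega),
      Pi.single_zero]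
  | succ j ih =>
    intro i hi
    push_cast at hi
    rw [vk, LinearMap.sub_apply, Module.End.mul_apply, Module.End.mul_apply, x2_single,
      ih i (by omega), ih (i + 1) (by omega), map_zero, sub_zero]

theorem vk_one (j : ℕ) : vk k j (Pi.single (-1 - (j : ℤ)) 1) = Pi.single 0 1 := by
  induction j with
  | zero => rw [vk, v0_apply]; simp
  | succ j ih =>
    rw [vk, LinearMap.sub_apply, Module.End.mul_apply, Module.End.mul_apply, x2_single,
      vk_zero k j (-1 - ((j + 1 : ℕ) : ℤ)) (by push_cast; omega), map_zero, sub_zero]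
    rw [show (-1 - ((j + 1 : ℕ) : ℤ)) + 1 = -1 - (j : ℤ) by push_cast; ring, ih]

theorem vj_ne (hω : ω ^ 2 + ω + 1 = 0) (j : ℕ) : vj ω (xV k ω) (vV k) j ≠ 0 := by
  intro h
  have h1 := vj_vk k ω hω j (0, Pi.single (-1 - (j : ℤ)) 1)
  rw [h, LinearMap.zero_apply] at h1
  have h2 := congrArg (fun a : VV k => a.1 0) h1
  simp only [vk_one] at h2
  simp at h2

theorem y_sub_one_ne : yV k ω - 1 ≠ 0 := by
  intro h
  have h1 := congrArg (fun T : Module.End k (VV k) => (T (fun _ => 1, 0)).1 0) h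
  simp [yV, y2] at h1

end

end Pool.Agent.H18R2.BZD.Q2
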